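import Pool.Agent.H26.REM.Targets2

set_option autoImplicit false

/-!
# MP_c65535_nt, uniform bounds for radicals of coprime levels: one more target
-/

namespace Pool.Agent.H26.REM

open NumberField Height Finset Polynomial Pool.Agent.H24.RD Pool.Agent.H23.RDD Pool.Agent.H29.RQ
  Pool.Agent.H29.SX Pool.Agent.H29.LG

/-- LFT: an automorphism over the lower level field can be extended from the level field such that
it fixes all the roots of the lower level. -/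
def T_LFT : Prop := ∀ (Ω : Type) [Field Ω] [CharZero Ω] [IsAlgClosed Ω] [Algebra.IsAlgebraic ℚ Ω]
  (r m : ℕ) (a : Fin r → ℚ) (N : Fin r → ℕ) (ζ : Ω) (θ : Fin r → Ω), Lev a m N ζ θ →
  ∀ p : ℕ, p.Prime → p ∣ m → (∀ i, padicValRat p (a i) = 0) →
  ∀ τ : Ω ≃ₐ[ℚ] Ω, τ (ζ ^ p) = ζ ^ p → (∀ i, τ (θ i) = θ i) →
  ∃ τ' : Ω ≃ₐ[ℚ] Ω, (∀ z ∈ IntermediateField.adjoin ℚ (insert ζ (Set.range θ)), τ' z = τ z) ∧
    ∀ z ∈ Lv ℚ Ω a (m * (∏ i, N i) / p) (∏ i, N i), τ' z = z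

/-- GQP: the primes at which the `a i` are units are good. -/
def T_GQP : Prop := ∀ (r : ℕ) (a : Fin r → ℚ), (∀ i, a i ≠ 0) → ∀ p : ℕ, p.Prime →
  (∀ i, padicValRat p (a i) = 0) → GoodP ℚ a p

end Pool.Agent.H26.REM
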