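import Pool.Agent.H26.REM.Targets2

set_option autoImplicit false

/-!
# MP_c65535_nt, row DIM: linear disjointness of a field and of the field of the `p`-th roots of unity
-/

namespace Pool.Agent.H26.REM

open NumberField Height Finset Polynomial

/-- The powers of a primitive root of unity of prime order are independent over `M`, if the
cyclotomic polynomial is irreducible. -/
theorem powInd (M Ω : Type) [Field M] [CharZero M] [Field Ω] [Algebra M Ω] (p : ℕ) (hp : p.Prime)
    (hirr : Irreducible (cyclotomic p M)) (ζ : Ω) (hζ : IsPrimitiveRoot ζ p) :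
    LinearIndependent M fun j : Fin (p - 1) => ζ ^ (j : ℕ) := by
  have hmin : minpoly M ζ = cyclotomic p M := by
    have hroot : aeval ζ (cyclotomic p M) = 0 := by
      rw [aeval_def, ← eval_map, map_cyclotomic]
      exact hζ.isRoot_cyclotomic hp.pos
    exact (minpoly.eq_of_irreducible_of_monic hirr hroot (cyclotomic.monic p M)).symm
  have hdeg : (minpoly M ζ).natDegree = p - 1 := by
    rw [hmin, natDegree_cyclotomic, Nat.totient_prime hp]
  have h := linearIndependent_pow (K := M) ζ
  rw [hdeg] at h
  exact h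

/-- The elements of `K(ζ)` are combinations of the first powers of `ζ`. -/
theorem powSpan (K Ω : Type) [Field K] [Field Ω] [Algebra K Ω] (p : ℕ) (hp : p.Prime)
    (ζ : Ω) (hζ : IsPrimitiveRoot ζ p) (c : Ω) (hc : c ∈ IntermediateField.adjoin K {ζ}) :
    ∃ a : Fin (p - 1) → K, c = ∑ j, algebraMap K Ω (a j) * ζ ^ (j : ℕ) := by
  have hint : IsIntegral K ζ :=
    (hζ.isIntegral hp.pos).tower_top
  have hroot : aeval ζ (cyclotomic p K) = 0 := by
    rw [aeval_def, ← eval_map, map_cyclotomic]
    exact hζ.isRoot_cyclotomic hp.pos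
  have h1 : c ∈ (IntermediateField.adjoin K {ζ}).toSubalgebra := hc
  rw [IntermediateField.adjoin_simple_toSubalgebra_of_isAlgebraic hint.isAlgebraic,
    Algebra.adjoin_singleton_eq_range_aeval] at h1
  obtain ⟨f, hf⟩ := h1
  have hmod : aeval ζ (f %ₘ cyclotomic p K) = c := by
    have h2 := congrArg (aeval ζ) (modByMonic_add_div f (cyclotomic p K))
    rw [map_add, map_mul, hroot, zero_mul, add_zero] at h2
    rw [h2]
    exact hf
  have hdeg : (f %ₘ cyclotomic p K).natDegree < p - 1 ∨ f %ₘ cyclotomic p K = 0 := by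
    by_cases h0 : f %ₘ cyclotomic p K = 0
    · exact Or.inr h0
    · left
      have h3 := degree_modByMonic_lt f (cyclotomic.monic p K)
      rw [degree_eq_natDegree h0, degree_cyclotomic, Nat.totient_prime hp] at h3
      exact_mod_cast h3
  refine ⟨fun j => (f %ₘ cyclotomic p K).coeff j, ?_⟩
  rw [← hmod]
  rcases hdeg with h | h
  · rw [aeval_eq_sum_range' h ζ, ← Fin.sum_univ_eq_sum_range
      (fun i => (f %ₘ cyclotomic p K).coeff i • ζ ^ i)]
    exact Finset.sum_congr rfl fun j _ => by rw [Algebra.smul_def]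
  · rw [h]
    simp

theorem pf_DIM : T_DIM := by
  intro K M Ω _ _ _ _ _ _ _ _ p hp hirr ζ hζ k x hx
  have hI := powInd M Ω p hp hirr ζ hζ
  rw [Fintype.linearIndependent_iff] at hx ⊢
  rw [Fintype.linearIndependent_iff] at hI
  intro c hc
  choose a ha using fun i => powSpan K Ω p hp ζ hζ (c i : Ω) (c i).2
  have h1 : ∀ j : Fin (p - 1), ∑ i, a i j • x i = 0 := by
    intro j
    refine hI (fun j => ∑ i, a i j • x i) ?_ j
    calc ∑ j : Fin (p - 1), (∑ i, a i j • x i) • ζ ^ (j : ℕ)
        = ∑ j : Fin (p - 1), ∑ i, algebraMap K Ω (a i j) * ζ ^ (j : ℕ) *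
            algebraMap M Ω (x i) := by
          refine Finset.sum_congr rfl fun j _ => ?_
          rw [Algebra.smul_def, map_sum, Finset.sum_mul]
          refine Finset.sum_congr rfl fun i _ => ?_
          rw [Algebra.smul_def, map_mul, ← IsScalarTower.algebraMap_apply K M Ω]
          ring
      _ = ∑ i, (∑ j : Fin (p - 1), algebraMap K Ω (a i j) * ζ ^ (j : ℕ)) *
            algebraMap M Ω (x i) := by
          rw [Finset.sum_comm]
          exact Finset.sum_congr rfl fun i _ => by rw [Finset.sum_mul]
      _ = ∑ i, c i • algebraMap M Ω (x i) := by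
          refine Finset.sum_congr rfl fun i _ => ?_
          rw [← ha i]
          rfl
      _ = 0 := hc
  intro i
  have h2 : (c i : Ω) = 0 := by
    rw [ha i]
    refine Finset.sum_eq_zero fun j _ => ?_
    rw [hx (fun i => a i j) (h1 j) i, map_zero, zero_mul]
  exact_mod_cast h2

end Pool.Agent.H26.REM
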