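import Pool.Agent.H26.REM.DIM

set_option autoImplicit false

/-!
# MP_c65535_nt, row EXA: the twisted powers satisfy all the relations
-/

namespace Pool.Agent.H26.REM

open NumberField Height Finset Polynomial Pool.Agent.H29.SX Pool.Agent.H29.LG

theorem memPres (K Ω : Type) [Field K] [Field Ω] [Algebra K Ω] (p : ℕ) (hp : p.Prime) (ζ : Ω)
    (hζ : IsPrimitiveRoot ζ p) (Ψ : Ω ≃+* Ω) (ψ : K ≃+* K)
    (h : ∀ x, Ψ (algebraMap K Ω x) = algebraMap K Ω (ψ x)) (x : Ω)
    (hx : x ∈ IntermediateField.adjoin K {ζ}) : Ψ x ∈ IntermediateField.adjoin K {ζ} := by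
  obtain ⟨a, ha⟩ := powSpan K Ω p hp ζ hζ x hx
  rw [ha, map_sum]
  refine sum_mem fun j _ => ?_
  rw [map_mul, h, map_pow]
  refine mul_mem (IntermediateField.algebraMap_mem _ _) (pow_mem ?_ _)
  have h1 : (Ψ ζ) ^ p = 1 := by rw [← map_pow, hζ.pow_eq_one, map_one]
  have : NeZero p := ⟨hp.ne_zero⟩
  obtain ⟨i, _, hi⟩ := hζ.eq_pow_of_pow_eq_one h1
  rw [← hi]
  exact pow_mem (IntermediateField.mem_adjoin_simple_self K ζ) _

theorem pf_EXA (hNINF : T_NINF) (hHB : Pool.Agent.H24.RD.T_HB) : T_EXA := by
  intro K M Ω _ _ _ _ _ _ _ _ _ _ _ _ p hp hirr ζ hζ φ m y N σ ρ hy hN hσ hgen hstab hρ hrel a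
    ha
  classical
  have hKalg : Algebra.IsAlgebraic K Ω := Algebra.IsAlgebraic.tower_top (K := ℚ) K
  have : IsAlgClosure K Ω := ⟨inferInstance, hKalg⟩
  let Φ : Ω ≃+* Ω := IsAlgClosure.equivOfEquiv Ω Ω φ
  have hΦ : ∀ x, Φ (algebraMap K Ω x) = algebraMap K Ω (φ x) := fun x =>
    IsAlgClosure.equivOfEquiv_algebraMap Ω Ω φ x
  have hΦs : ∀ x, Φ.symm (algebraMap K Ω x) = algebraMap K Ω (φ.symm x) := fun x => by
    rw [RingEquiv.symm_apply_eq, hΦ, RingEquiv.apply_symm_apply]
  let κ₂ : IntermediateField.adjoin K {ζ} ≃+* IntermediateField.adjoin K {ζ} :=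
    { toFun := fun x => ⟨Φ.symm x, memPres K Ω p hp ζ hζ Φ.symm φ.symm hΦs x x.2⟩
      invFun := fun x => ⟨Φ x, memPres K Ω p hp ζ hζ Φ φ hΦ x x.2⟩
      left_inv := fun x => Subtype.ext (by simp)
      right_inv := fun x => Subtype.ext (by simp)
      map_mul' := fun x y => Subtype.ext (by simp)
      map_add' := fun x y => Subtype.ext (by simp) }
  have hζ' : IsPrimitiveRoot (⟨ζ, IntermediateField.mem_adjoin_simple_self K ζ⟩ :
      IntermediateField.adjoin K {ζ}) (p ^ 1) := by
    rw [pow_one]
    exact IsPrimitiveRoot.coe_submonoidClass_iff.1 hζ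
  have hy' : IsPt fun a => algebraMap M Ω (y a) :=
    ⟨by rw [hy.zero, map_one], fun a b => by rw [hy.add, map_mul]⟩
  have hI := powInd M Ω p hp hirr ζ hζ
  rw [Fintype.linearIndependent_iff] at hI
  have hkey := hNINF (IntermediateField.adjoin K {ζ}) Ω p p 0 1 hp hp
    (by rw [pow_zero, pow_one]; exact hp.one_lt) 1 _ (by rw [pow_zero]; exact IsPrimitiveRoot.one)
    hζ' (RingEquiv.refl Ω) Φ.symm (RingEquiv.refl _) κ₂ (fun x => rfl) (fun x => rfl) m _ N σ ρ hy'
    hN hσ hgen (hstab p hp) (hstab p hp) (by rw [pow_one]; exact hρ) (by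
      intro f hfS hf
      choose A hA using fun b => powSpan K Ω p hp ζ hζ (f b : Ω) (f b).2
      let g : Fin (p - 1) → (Fin m → ℤ) →₀ K := fun j => Finsupp.onFinset f.support
        (fun b => if b ∈ f.support then A b j else 0) (by
          intro b hb
          by_contra hbS
          exact hb (if_neg hbS))
      have hgs : ∀ j, (g j).support ⊆ f.support := fun j => Finsupp.support_onFinset_subset
      have hg : ∀ j, ∀ b ∈ f.support, g j b = A b j := by
        intro j b hb
        simp only [g, Finsupp.onFinset_apply]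
        rw [if_pos hb]
      have hev : ∀ j, ev K y (g j) = ∑ b ∈ f.support, algebraMap K M (A b j) * y b := by
        intro j
        unfold ev
        rw [Finsupp.sum_of_support_subset (g j) (hgs j) _ (fun b _ => by rw [map_zero, zero_mul])]
        exact Finset.sum_congr rfl fun b hb => by rw [hg j b hb]
      have hev' : ∀ j, ((g j).sum fun a c => algebraMap K M (φ c) * y a ^ p) =
          ∑ b ∈ f.support, algebraMap K M (φ (A b j)) * y b ^ p := by
        intro j
        rw [Finsupp.sum_of_support_subset (g j) (hgs j) _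
          (fun b _ => by rw [map_zero, map_zero, zero_mul])]
        exact Finset.sum_congr rfl fun b hb => by rw [hg j b hb]
      have h0 : ∀ j, ev K y (g j) = 0 := by
        refine hI (fun j => ev K y (g j)) ?_
        calc ∑ j : Fin (p - 1), ev K y (g j) • ζ ^ (j : ℕ)
            = ∑ j : Fin (p - 1), ∑ b ∈ f.support, algebraMap K Ω (A b j) * ζ ^ (j : ℕ) *
                algebraMap M Ω (y b) := by
              refine Finset.sum_congr rfl fun j _ => ?_
              rw [hev j, Algebra.smul_def, map_sum, Finset.sum_mul]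
              refine Finset.sum_congr rfl fun b _ => ?_
              rw [map_mul, ← IsScalarTower.algebraMap_apply K M Ω]
              ring
          _ = ∑ b ∈ f.support, (f b : Ω) * algebraMap M Ω (y b) := by
              rw [Finset.sum_comm]
              refine Finset.sum_congr rfl fun b _ => ?_
              rw [← Finset.sum_mul, ← hA b]
          _ = 0 := by
              have h1 := hf
              simp only [ev, Finsupp.sum, pow_zero, pow_one, RingEquiv.refl_apply] at h1
              exact h1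
      have h2 : ∀ j, ∑ b ∈ f.support, algebraMap K Ω (φ (A b j)) * algebraMap M Ω (y b) ^ p =
          0 := by
        intro j
        have h3 := hrel (g j) (fun b hb => hfS b (hgs j hb)) (h0 j)
        rw [hev' j] at h3
        have h4 := congrArg (algebraMap M Ω) h3
        rw [map_sum, map_zero] at h4
        rw [← h4]
        refine Finset.sum_congr rfl fun b _ => ?_
        rw [map_mul, ← IsScalarTower.algebraMap_apply K M Ω, map_pow]
      have h5 : Φ (ev (IntermediateField.adjoin K {ζ})
          (fun a => Φ.symm (algebraMap M Ω (y a) ^ (p ^ 1))) f) = 0 := by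
        unfold ev
        rw [Finsupp.sum, map_sum]
        calc ∑ b ∈ f.support, Φ (algebraMap (IntermediateField.adjoin K {ζ}) Ω (f b) *
              Φ.symm (algebraMap M Ω (y b) ^ (p ^ 1)))
            = ∑ b ∈ f.support, ∑ j : Fin (p - 1), (Φ ζ) ^ (j : ℕ) *
                (algebraMap K Ω (φ (A b j)) * algebraMap M Ω (y b) ^ p) := by
              refine Finset.sum_congr rfl fun b _ => ?_
              have h6 : algebraMap (IntermediateField.adjoin K {ζ}) Ω (f b) =
                  ∑ j, algebraMap K Ω (A b j) * ζ ^ (j : ℕ) := hA b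
              rw [map_mul, RingEquiv.apply_symm_apply, pow_one, h6, map_sum, Finset.sum_mul]
              refine Finset.sum_congr rfl fun j _ => ?_
              rw [map_mul, hΦ, map_pow]
              ring
          _ = ∑ j : Fin (p - 1), (Φ ζ) ^ (j : ℕ) *
                ∑ b ∈ f.support, algebraMap K Ω (φ (A b j)) * algebraMap M Ω (y b) ^ p := by
              rw [Finset.sum_comm]
              exact Finset.sum_congr rfl fun j _ => by rw [Finset.mul_sum]
          _ = 0 := Finset.sum_eq_zero fun j _ => by rw [h2 j, mul_zero]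
      exact (map_eq_zero Φ).1 h5) a ha
  rw [pow_zero, pow_one, pow_one] at hkey
  have hK' : Algebra.IsAlgebraic (IntermediateField.adjoin K {ζ}) Ω :=
    Algebra.IsAlgebraic.tower_top (K := K) (IntermediateField.adjoin K {ζ})
  have : IsAlgClosure (IntermediateField.adjoin K {ζ}) Ω := ⟨inferInstance, hK'⟩
  have hnorm : Normal (IntermediateField.adjoin K {ζ}) Ω := IsAlgClosure.normal _ _
  have hint : IsIntegral (IntermediateField.adjoin K {ζ}) (algebraMap M Ω (y a)) :=
    (hK'.isAlgebraic _).isIntegral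
  obtain ⟨τ, hτ⟩ := (isConjRoot_iff_exists_algEquiv).1
    ((isConjRoot_iff_aeval_eq_zero hint).2 hkey)
  obtain ⟨_, _, _, hpow, _, hinv, hkr⟩ := hHB Ω
  have h7 := hinv Φ.symm (algebraMap M Ω (y a) ^ p)
  rw [hpow] at h7
  have h8 : absLogHeight₁ (algebraMap M Ω (y a)) =
      absLogHeight₁ (Φ.symm (algebraMap M Ω (y a) ^ p)) :=
    (congrArg absLogHeight₁ hτ).symm.trans (hinv τ.toRingEquiv _)
  have h9 : absLogHeight₁ (algebraMap M Ω (y a)) = 0 := by
    have h10 : (2 : ℝ) ≤ p := by exact_mod_cast hp.two_le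
    nlinarith [(hHB Ω).1 (algebraMap M Ω (y a))]
  have hne : y a ≠ 0 := by
    intro h0
    have h11 := hy.add a (-a)
    rw [add_neg_cancel, hy.zero, h0, zero_mul] at h11
    exact one_ne_zero h11
  obtain ⟨n, hn, hn1⟩ := hkr _ ((_root_.map_ne_zero _).2 hne) h9
  refine ⟨n, hn, ?_⟩
  rw [← map_pow] at hn1
  exact (algebraMap M Ω).injective (by rw [hn1, map_one])

end Pool.Agent.H26.REM
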