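import Pool.Agent.H26.REM.Targets2

set_option autoImplicit false

/-!
# MP_c65535_nt, row EXB: many relations
-/

namespace Pool.Agent.H26.REM

open NumberField Height Finset Polynomial Pool.Agent.H29.SX Pool.Agent.H29.LG

/-- The ranks over `K` and over `K(ζ)` are equal. -/
theorem dimEq (hDIM : T_DIM) (K M Ω : Type) [Field K] [Field M] [CharZero M] [Field Ω]
    [Algebra K M] [Algebra M Ω] [Algebra K Ω] [IsScalarTower K M Ω] (p : ℕ) (hp : p.Prime)
    (hirr : Irreducible (cyclotomic p M)) (ζ : Ω) (hζ : IsPrimitiveRoot ζ p) {ι : Type}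
    [Finite ι] (x : ι → M) :
    Module.finrank (IntermediateField.adjoin K {ζ}) (Submodule.span (IntermediateField.adjoin K {ζ})
      (Set.range fun i => algebraMap M Ω (x i))) =
    Module.finrank K (Submodule.span K (Set.range x)) := by
  classical
  obtain ⟨κ, a, ha, hspan, hli⟩ := exists_linearIndependent' K x
  have : Finite κ := Finite.of_injective a ha
  have : Fintype κ := Fintype.ofFinite κ
  have h1 : Module.finrank K (Submodule.span K (Set.range x)) = Fintype.card κ := by
    rw [← hspan]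
    exact finrank_span_eq_card hli
  let e : Fin (Fintype.card κ) ≃ κ := (Fintype.equivFin κ).symm
  have h2 : LinearIndependent (IntermediateField.adjoin K {ζ})
      fun i => algebraMap M Ω ((x ∘ a) (e i)) :=
    hDIM K M Ω p hp hirr ζ hζ (Fintype.card κ) (fun i => (x ∘ a) (e i))
      (hli.comp e e.injective)
  have h3 : LinearIndependent (IntermediateField.adjoin K {ζ})
      fun i : κ => algebraMap M Ω ((x ∘ a) i) := by
    have h4 := h2.comp e.symm e.symm.injective
    refine (linearIndependent_equiv' (Equiv.refl κ) ?_).1 h4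
    funext i
    simp
  have h5 : Submodule.span (IntermediateField.adjoin K {ζ})
      (Set.range fun i => algebraMap M Ω (x i)) =
      Submodule.span (IntermediateField.adjoin K {ζ})
        (Set.range fun i : κ => algebraMap M Ω ((x ∘ a) i)) := by
    apply le_antisymm
    · rw [Submodule.span_le]
      rintro _ ⟨i, rfl⟩
      have h6 : x i ∈ Submodule.span K (Set.range (x ∘ a)) := by
        rw [hspan]
        exact Submodule.subset_span ⟨i, rfl⟩
      obtain ⟨c, hc⟩ := (Submodule.mem_span_range_iff_exists_fun K).1 h6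
      rw [SetLike.mem_coe, Submodule.mem_span_range_iff_exists_fun]
      refine ⟨fun l => algebraMap K (IntermediateField.adjoin K {ζ}) (c l), ?_⟩
      simp only []
      rw [← hc, map_sum]
      refine Finset.sum_congr rfl fun l _ => ?_
      rw [Algebra.smul_def, Algebra.smul_def, map_mul, ← IsScalarTower.algebraMap_apply K M Ω]
      rfl
    · rw [Submodule.span_le]
      rintro _ ⟨i, rfl⟩
      exact Submodule.subset_span ⟨a i, rfl⟩
  rw [h5, h1]
  exact finrank_span_eq_card h3

theorem shiftSum {A K M : Type} [AddCommGroup A] [Field K] [AddCommMonoid M] (S : Finset A)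
    (f : A →₀ K) (b0 : A) (h : ∀ a ∈ f.support, a + b0 ∈ S) (G : A → K → M)
    (hG : ∀ b, G b 0 = 0) :
    ∑ b : S, G b (f (b - b0)) = f.sum fun a c => G (a + b0) c := by
  classical
  rw [Finset.sum_coe_sort S fun b => G b (f (b - b0))]
  have hsub : f.support.image (fun a => a + b0) ⊆ S := by
    intro b hb
    obtain ⟨a, ha, rfl⟩ := Finset.mem_image.1 hb
    exact h a ha
  rw [← Finset.sum_subset hsub]
  · rw [Finset.sum_image (fun a _ b _ hab => add_right_cancel hab)]
    exact Finset.sum_congr rfl fun a _ => by rw [add_sub_cancel_right]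
  · intro b _ hb
    have : f (b - b0) = 0 := by
      by_contra h0
      apply hb
      rw [Finset.mem_image]
      exact ⟨b - b0, Finsupp.mem_support_iff.2 h0, sub_add_cancel b b0⟩
    rw [this, hG]

theorem pf_EXB (hDIM : T_DIM) (hGROF : T_GROF) : T_EXB := by
  intro K M Ω _ _ _ _ _ _ _ _ _ _ p hp hp3 hirr ζ hζ φ m y N σ ρ hy hN hσ hgen hstab hρ f hfS
    hf0 hF
  classical
  have hp1 : (3 : ℝ) ≤ p := by exact_mod_cast hp3
  have hpm : 0 ≤ (p : ℝ) ^ m := by positivity
  have hρσ : (m * (p : ℝ) + (p : ℝ) ^ m) * σ ≤ ρ := hρ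
  have hm0 : (0 : ℝ) ≤ m := Nat.cast_nonneg m
  have hρ0 : 0 ≤ ρ := le_trans (by positivity) hρσ
  have hρm : (m + (p : ℝ) ^ m) * σ ≤ ρ := by
    refine le_trans (mul_le_mul_of_nonneg_right ?_ hσ) hρσ
    nlinarith
  -- the ranks
  have hζ' : IsPrimitiveRoot (⟨ζ, IntermediateField.mem_adjoin_simple_self K ζ⟩ :
      IntermediateField.adjoin K {ζ}) (p ^ 1) := by
    rw [pow_one]
    exact IsPrimitiveRoot.coe_submonoidClass_iff.1 hζ
  have hy' : IsPt fun a => algebraMap M Ω (y a) :=
    ⟨by rw [hy.zero, map_one], fun a b => by rw [hy.add, map_mul]⟩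
  have hG := hGROF (IntermediateField.adjoin K {ζ}) Ω p 1 hp _ hζ' m _ N hy' hN σ ρ hσ hgen hstab
  rw [pow_one, pow_one] at hG
  have hfin1 : {a | N a ≤ 2 * ρ + m * σ}.Finite := hN.fin _
  have hfin2 : {a | N a ≤ ρ + m * σ}.Finite := hN.fin _
  have hfin3 : {a | N a ≤ (p : ℝ) * ρ - (p : ℝ) ^ m * σ}.Finite := hN.fin _
  have : Finite {a | N a ≤ 2 * ρ + m * σ} := hfin1
  have : Finite {a | N a ≤ ρ + m * σ} := hfin2
  obtain ⟨S, hSdef⟩ : ∃ S : Finset (Fin m → ℤ), ∀ b, b ∈ S ↔ N b ≤ 2 * ρ + m * σ :=
    ⟨hfin1.toFinset, fun b => by simp⟩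
  -- a family of powers which is independent
  obtain ⟨κ, a, ha, hspan, hli⟩ := exists_linearIndependent' K
    fun b : {a | N a ≤ ρ + m * σ} => y b ^ p
  have : Finite κ := Finite.of_injective a ha
  have : Fintype κ := Fintype.ofFinite κ
  let e : Fin (Fintype.card κ) ≃ κ := (Fintype.equivFin κ).symm
  have hcard : Module.finrank (IntermediateField.adjoin K {ζ})
      (WW (IntermediateField.adjoin K {ζ}) (fun a => algebraMap M Ω (y a) ^ p) N (ρ + m * σ)) =
      Fintype.card κ := by
    have h1 := dimEq hDIM K M Ω p hp hirr ζ hζ fun b : {a | N a ≤ ρ + m * σ} => y b ^ p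
    rw [← hspan, finrank_span_eq_card hli] at h1
    rw [← h1]
    have h2 : (Set.range fun b : {a | N a ≤ ρ + m * σ} => algebraMap M Ω (y b ^ p)) =
        (fun a => algebraMap M Ω (y a) ^ p) '' {a | N a ≤ ρ + m * σ} := by
      rw [Set.image_eq_range]
      exact congrArg Set.range (funext fun b => by rw [map_pow])
    rw [WW, ← h2]
  have hle : Module.finrank K (Submodule.span K (Set.range fun b : S => y b)) ≤
      Fintype.card κ := by
    rw [← dimEq hDIM K M Ω p hp hirr ζ hζ fun b : S => y b, ← hcard]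
    refine le_trans ?_ hG
    have h3 : (Set.range fun b : S => algebraMap M Ω (y b)) =
        (fun a => algebraMap M Ω (y a)) '' {a | N a ≤ 2 * ρ + m * σ} := by
      ext z
      simp only [Set.mem_range, Set.mem_image, Set.mem_ofPred_eq]
      constructor
      · rintro ⟨b, rfl⟩
        exact ⟨b, (hSdef b).1 b.2, rfl⟩
      · rintro ⟨b, hb, rfl⟩
        exact ⟨⟨b, (hSdef b).2 hb⟩, rfl⟩
    rw [h3]
    have : FiniteDimensional (IntermediateField.adjoin K {ζ})
        (WW (IntermediateField.adjoin K {ζ}) (fun a => algebraMap M Ω (y a)) N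
          ((p : ℝ) * ρ - (p : ℝ) ^ m * σ)) :=
      FiniteDimensional.span_of_finite _ (hfin3.image _)
    refine Submodule.finrank_mono (Submodule.span_mono (Set.image_mono ?_))
    intro b hb
    simp only [Set.mem_ofPred_eq] at hb ⊢
    nlinarith
  have hshift : ∀ (l : κ) (x : Fin m → ℤ), x ∈ f.support →
      x + ((a l : {a | N a ≤ ρ + m * σ}) : Fin m → ℤ) ∈ S := by
    intro l x hx
    rw [hSdef]
    have h4 := hN.add x (a l : {a | N a ≤ ρ + m * σ})
    have h5 := hfS x hx
    have h6 : N ((a l : {a | N a ≤ ρ + m * σ}) : Fin m → ℤ) ≤ ρ + m * σ := (a l).2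
    linarith
  refine ⟨S, Fintype.card κ, fun i b => f (b - ((a (e i) : {a | N a ≤ ρ + m * σ}) :
    Fin m → ℤ)), ?_, ?_, ?_, ?_, hle⟩
  · refine ⟨0, (hSdef 0).2 ?_⟩
    have h0 : N 0 = 0 := by
      have := hN.nsm 0 0
      simpa using this
    rw [h0]
    positivity
  · intro b hb
    exact (hSdef b).1 hb
  · intro i
    rw [shiftSum S f _ (hshift (e i)) (fun b c => algebraMap K M c * y b)
      (fun b => by rw [map_zero, zero_mul])]
    calc (f.sum fun x c => algebraMap K M c * y (x + ((a (e i) : {a | N a ≤ ρ + m * σ}) :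
          Fin m → ℤ)))
        = ev K y f * y ((a (e i) : {a | N a ≤ ρ + m * σ}) : Fin m → ℤ) := by
          rw [ev, Finsupp.sum_mul]
          exact Finset.sum_congr rfl fun x _ => by simp only [hy.add]; ring
      _ = 0 := by rw [hf0, zero_mul]
  · have h7 : (fun i : Fin (Fintype.card κ) => ∑ b : S, algebraMap K M (φ (f ((b : Fin m → ℤ) -
        ((a (e i) : {a | N a ≤ ρ + m * σ}) : Fin m → ℤ)))) * y b ^ p) =
        fun i => (f.sum fun x c => algebraMap K M (φ c) * y x ^ p) •
          (y ((a (e i) : {a | N a ≤ ρ + m * σ}) : Fin m → ℤ) ^ p) := by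
      funext i
      rw [shiftSum S f _ (hshift (e i)) (fun b c => algebraMap K M (φ c) * y b ^ p)
        (fun b => by rw [map_zero, map_zero, zero_mul]), smul_eq_mul, Finsupp.sum_mul]
      exact Finset.sum_congr rfl fun x _ => by simp only [hy.add, mul_pow]; ring
    rw [h7]
    have h8 := hli.comp e e.injective
    have h9 : Function.Injective (LinearMap.mulLeft K
        (f.sum fun x c => algebraMap K M (φ c) * y x ^ p)) := by
      intro u v huv
      exact mul_left_cancel₀ hF huv
    exact h8.map' (LinearMap.mulLeft K _) (LinearMap.ker_eq_bot.2 h9)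

end Pool.Agent.H26.REM
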