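import Pool.Agent.H26.REM.Targets2

set_option autoImplicit false

/-!
# MP_c65535_nt, row EXI: a torsion relation or many relations
-/

namespace Pool.Agent.H26.REM

open NumberField Height Finset Polynomial Pool.Agent.H29.SX Pool.Agent.H29.LG

theorem pf_EXI (hEXA : T_EXA) (hEXB : T_EXB) (hCHOA : T_CHOA) : T_EXI := by
  intro K M _ _ _ _ _ p hp hp3 hirr φ m y N σ hy hN hσ ⟨f, hf0, hfS, hfe⟩
  classical
  have hQ : Algebra.IsAlgebraic ℚ (AlgebraicClosure M) := Algebra.IsAlgebraic.trans ℚ M _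
  obtain ⟨ζ, hζ⟩ : ∃ ζ : AlgebraicClosure M, IsPrimitiveRoot ζ p := by
    have hne : NeZero ((p : ℕ) : AlgebraicClosure M) := ⟨by exact_mod_cast hp.ne_zero⟩
    obtain ⟨ζ, hζ⟩ := IsAlgClosed.exists_root (cyclotomic p (AlgebraicClosure M)) (by
      rw [degree_cyclotomic, Nat.totient_prime hp]
      have : 1 ≤ p - 1 := by omega
      intro h0
      have h1 : p - 1 = 0 := by exact_mod_cast h0
      omega)
    exact ⟨ζ, isRoot_cyclotomic_iff.1 hζ⟩
  have hy' : IsPt fun a => algebraMap M (AlgebraicClosure M) (y a) :=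
    ⟨by rw [hy.zero, map_one], fun a b => by rw [hy.add, map_mul]⟩
  let f' : (Fin m → ℤ) →₀ IntermediateField.adjoin K {ζ} :=
    f.mapRange (algebraMap K (IntermediateField.adjoin K {ζ})) (map_zero _)
  have hf'a : ∀ a, f' a = algebraMap K (IntermediateField.adjoin K {ζ}) (f a) := fun a => by
    simp only [f', Finsupp.mapRange_apply]
  have hsupp : f'.support ⊆ f.support := Finsupp.support_mapRange
  have hf'0 : f' ≠ 0 := by
    intro h0
    apply hf0
    ext a
    have h1 := hf'a a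
    rw [h0, Finsupp.zero_apply] at h1
    exact (map_eq_zero _).1 h1.symm
  have hf'e : ev (IntermediateField.adjoin K {ζ})
      (fun a => algebraMap M (AlgebraicClosure M) (y a)) f' = 0 := by
    unfold ev
    rw [Finsupp.sum_of_support_subset f' hsupp _ (fun b _ => by rw [map_zero, zero_mul])]
    have h2 := congrArg (algebraMap M (AlgebraicClosure M)) hfe
    unfold ev at h2
    rw [Finsupp.sum, map_sum, map_zero] at h2
    rw [← h2]
    refine Finset.sum_congr rfl fun a _ => ?_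
    rw [hf'a, map_mul, ← IsScalarTower.algebraMap_apply K M]
    rfl
  obtain ⟨m', L, hm', hLinj, hstab, hgen, a0, ha0, hNa0⟩ :=
    hCHOA (IntermediateField.adjoin K {ζ}) (AlgebraicClosure M) m _ N σ hy' hN f' hf'0
      (fun a ha => hfS a (hsupp ha)) hf'e
  have hp1 : (3 : ℝ) ≤ p := by exact_mod_cast hp3
  have hyL : IsPt fun a => y (L a) := ⟨by rw [map_zero, hy.zero], fun a b => by
    rw [map_add, hy.add]⟩
  have hNL : IsNm fun a => N (L a) := ⟨fun a => by rw [map_neg, hN.neg],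
    fun a b => by rw [map_add]; exact hN.add _ _, fun q a => by rw [map_nsmul, hN.nsm],
    fun ρ => (hN.fin ρ).preimage hLinj.injOn⟩
  have hB : 1 ≤ (m' * (p : ℝ) + (p : ℝ) ^ m') := by
    have h1 : (1 : ℝ) ≤ (p : ℝ) ^ m' := one_le_pow₀ (by linarith)
    have h2 : (0 : ℝ) ≤ m' * (p : ℝ) := by positivity
    linarith
  have h2σ : 2 * σ ≤ (m' * (p : ℝ) + (p : ℝ) ^ m') * (2 * σ) := by nlinarith
  have hρ0 : 0 ≤ (m' * (p : ℝ) + (p : ℝ) ^ m') * (2 * σ) := by linarith
  by_cases h : ∀ g : (Fin m' → ℤ) →₀ K,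
      Spt (fun a => N (L a)) (8 * ((m' * (p : ℝ) + (p : ℝ) ^ m') * (2 * σ))) g →
      ev K (fun a => y (L a)) g = 0 →
      g.sum (fun a c => algebraMap K M (φ c) * y (L a) ^ p) = 0
  · left
    obtain ⟨n, hn, hn1⟩ := hEXA K M (AlgebraicClosure M) p hp hirr ζ hζ φ m' (fun a => y (L a))
      (fun a => N (L a)) (2 * σ) _ hyL hNL (by linarith) hgen hstab le_rfl h a0 (by linarith)
    refine ⟨L a0, ?_, hNa0, n, hn, hn1⟩
    intro h0
    exact ha0 (hLinj (by rw [h0, map_zero]))
  · right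
    push Not at h
    obtain ⟨g, hgS, hge, hgF⟩ := h
    obtain ⟨S, r2, c, hSne, hSN, hc1, hc2, hr⟩ := hEXB K M (AlgebraicClosure M) p hp hp3 hirr ζ hζ φ
      m' (fun a => y (L a)) (fun a => N (L a)) (2 * σ) _ hyL hNL (by linarith) hgen (hstab p hp)
      (by linarith) g hgS hge hgF
    let E : S ≃ S.map ⟨L, hLinj⟩ := Equiv.ofBijective
      (fun b : S => (⟨L b, Finset.mem_map.2 ⟨b, b.2, rfl⟩⟩ : S.map ⟨L, hLinj⟩)) (by
        constructor
        · intro b b' hbb
          exact Subtype.ext (hLinj (congrArg Subtype.val hbb))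
        · rintro ⟨b, hb⟩
          obtain ⟨a, ha, hab⟩ := Finset.mem_map.1 hb
          exact ⟨⟨a, ha⟩, Subtype.ext hab⟩)
    have hE : ∀ b : S, ((E b : S.map ⟨L, hLinj⟩) : Fin m → ℤ) = L b := fun b => rfl
    have hsum : ∀ G : Fin r2 → (K → M) , ∀ (q : ℕ) (i : Fin r2),
        ∑ b : S.map ⟨L, hLinj⟩, G i (c i (E.symm b)) * y b ^ q =
          ∑ b : S, G i (c i b) * y (L b) ^ q := by
      intro G q i
      refine (Fintype.sum_equiv E _ _ fun b => ?_).symm
      rw [Equiv.symm_apply_apply, hE]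
    refine ⟨S.map ⟨L, hLinj⟩, r2, fun i b => c i (E.symm b), ?_, ?_, ?_, ?_, ?_⟩
    · exact hSne.map
    · intro b hb
      obtain ⟨a, ha, rfl⟩ := Finset.mem_map.1 hb
      have h3 : N (L a) ≤ _ := hSN a ha
      have hmm : (m' : ℝ) ≤ m := by exact_mod_cast hm'
      have h4 : (p : ℝ) ^ m' ≤ (p : ℝ) ^ m := pow_le_pow_right₀ (by linarith) hm'
      have h5 : (m' : ℝ) * (2 * σ) ≤ (m' * (p : ℝ) + (p : ℝ) ^ m') * (2 * σ) := by
        refine mul_le_mul_of_nonneg_right ?_ (by linarith)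
        have h7 : (0 : ℝ) ≤ (p : ℝ) ^ m' := by positivity
        have h8 : (0 : ℝ) ≤ m' := Nat.cast_nonneg m'
        nlinarith
      have h6 : (m' * (p : ℝ) + (p : ℝ) ^ m') * (2 * σ) ≤
          (m * (p : ℝ) + (p : ℝ) ^ m) * (2 * σ) := by
        refine mul_le_mul_of_nonneg_right ?_ (by linarith)
        have : (m' : ℝ) * p ≤ m * p := mul_le_mul_of_nonneg_right hmm (by linarith)
        linarith
      have h9 : N (L a) ≤ 48 * (m * p + (p : ℝ) ^ m) * σ := by
        refine le_trans h3 ?_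
        nlinarith
      exact h9
    · intro i
      have h1 := hsum (fun _ k => algebraMap K M k) 1 i
      simp only [pow_one] at h1
      rw [h1]
      exact hc1 i
    · have h2 : (fun i => ∑ b : S.map ⟨L, hLinj⟩, algebraMap K M (φ (c i (E.symm b))) * y b ^ p) =
          fun i => ∑ b : S, algebraMap K M (φ (c i b)) * y (L b) ^ p := by
        funext i
        exact hsum (fun _ k => algebraMap K M (φ k)) p i
      rw [h2]
      exact hc2
    · have h3 : (Set.range fun b : S.map ⟨L, hLinj⟩ => y b) = Set.range fun b : S => y (L b) := by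
        ext z
        simp only [Set.mem_range]
        constructor
        · rintro ⟨b, rfl⟩
          exact ⟨E.symm b, by rw [← hE, Equiv.apply_symm_apply]⟩
        · rintro ⟨b, rfl⟩
          exact ⟨E b, by rw [hE]⟩
      rw [h3]
      exact hr

end Pool.Agent.H26.REM
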