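import Pool.Agent.H26.REM.Targets2

set_option autoImplicit false

/-!
# MP_c65535_nt, row RLN: a relation exists if there are many monomials
-/

namespace Pool.Agent.H26.REM

open NumberField Height Finset Polynomial Pool.Agent.H29.SX

theorem pf_RLN : T_RLN := by
  intro K M _ _ _ _ m y N σ S hS hcard
  classical
  have hdep : ¬ LinearIndependent K (fun b : S => y b) := by
    intro h
    have := h.fintype_card_le_finrank
    rw [Fintype.card_coe] at this
    omega
  rw [Fintype.not_linearIndependent_iff] at hdep
  obtain ⟨g, hg, i, hi⟩ := hdep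
  let f : (Fin m → ℤ) →₀ K := Finsupp.onFinset S
    (fun b => if h : b ∈ S then g ⟨b, h⟩ else 0) (by
      intro b hb
      by_contra hbS
      exact hb (dif_neg hbS))
  have hf : ∀ b : S, f b = g b := by
    intro b
    simp only [f, Finsupp.onFinset_apply]
    rw [dif_pos b.2]
  have hsub : f.support ⊆ S := Finsupp.support_onFinset_subset
  refine ⟨f, ?_, ?_, ?_⟩
  · intro h0
    apply hi
    rw [← hf i, h0, Finsupp.zero_apply]
  · intro a ha
    exact hS a (hsub ha)
  · unfold ev
    rw [Finsupp.sum_of_support_subset f hsub _ (fun b _ => by rw [map_zero, zero_mul]),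
      ← Finset.sum_coe_sort S]
    calc ∑ b : S, algebraMap K M (f b) * y b = ∑ b : S, g b • y b :=
          Finset.sum_congr rfl fun b _ => by rw [hf b, Algebra.smul_def]
      _ = 0 := hg

end Pool.Agent.H26.REM
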