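import Pool.Agent.H29.LG.All
import Pool.Agent.H16.REM.CGI
import Pool.Agent.H16.REM.GHT
import Pool.Agent.H17.REM.NRM
import Pool.Agent.H17.REM.UPA
import Pool.Agent.H26.REM.DIM
import Pool.Agent.H26.REM.EXA
import Pool.Agent.H26.REM.EXB
import Pool.Agent.H26.REM.EXI
import Pool.Agent.H26.REM.RLN
import Pool.Agent.H46.REM.MPB
import Pool.Agent.H49.REM.ADE
import Pool.Agent.H49.REM.GQP
import Pool.Agent.H49.REM.LFT
import Pool.Agent.H49.REM.SLP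
import Pool.Agent.H49.REM.TOW
import Pool.Agent.H50.REM.EIS
import Pool.Agent.H50.REM.LOB
import Pool.Agent.H51.REM.EMB
import Pool.Agent.H51.REM.MPR
import Pool.Agent.H52.REM.BEX
import Pool.Agent.H52.REM.BLE
import Pool.Agent.H52.REM.CGR
import Pool.Agent.H52.REM.DSC
import Pool.Agent.H52.REM.FIB
import Pool.Agent.H52.REM.GQ
import Pool.Agent.H52.REM.GSP
import Pool.Agent.H52.REM.HAD
import Pool.Agent.H52.REM.LBD
import Pool.Agent.H52.REM.PIE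
import Pool.Agent.H52.REM.SML
import Pool.Agent.H61.REM.FIN
import Pool.Agent.H69.REM.CNT
import Pool.Agent.H69.REM.DKG
import Pool.Agent.H69.REM.EIV
import Pool.Agent.H69.REM.LLF
import Pool.Agent.H69.REM.VLI
import Pool.Agent.H7.REM.IDV
import Pool.Agent.H7.REM.PDJ
import Pool.Agent.H7.REM.UPB
import Pool.Agent.H81.REM.INE
import Pool.Agent.H86.REM.ADI
import Pool.Agent.H86.REM.CYD
import Pool.Agent.H86.REM.DSK
import Pool.Agent.H86.REM.HTY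
import Pool.Agent.H89.REM.INR
import Pool.Agent.H90.REM.LS
import Pool.Agent.H90.REM.QM

set_option autoImplicit false

/-!
# MP_c65535_nt, uniform bounds for radicals of coprime levels: assembly
-/

namespace Pool.Agent.H26.REM

theorem aCNT : T_CNT := Pool.Agent.H69.REM.pf_CNT
theorem aRLN : T_RLN := Pool.Agent.H26.REM.pf_RLN
theorem aNRM : T_NRM := Pool.Agent.H17.REM.pf_NRM
theorem aEXA : T_EXA := Pool.Agent.H26.REM.pf_EXA Pool.Agent.H29.LG.aNINF Pool.Agent.H24.RD.aHB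
theorem aDIM : T_DIM := Pool.Agent.H26.REM.pf_DIM
theorem aEXB : T_EXB := Pool.Agent.H26.REM.pf_EXB aDIM Pool.Agent.H29.LG.aGROF
theorem aEXI : T_EXI := Pool.Agent.H26.REM.pf_EXI aEXA aEXB Pool.Agent.H29.LG.aCHOA
theorem aUPA : T_UPA := Pool.Agent.H17.REM.pf_UPA
theorem aHAD : T_HAD := Pool.Agent.H52.REM.pf_HAD
theorem aGCH : T_GCH := Pool.Agent.H52.REM.pf_GCH
theorem aFIB : T_FIB := Pool.Agent.H52.REM.pf_FIB aHAD aGCH
theorem aDKG : T_DKG := Pool.Agent.H69.REM.pf_DKG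
theorem aBLE : T_BLE := Pool.Agent.H52.REM.pf_BLE aGCH
theorem aUPB : T_UPB := Pool.Agent.H7.REM.pf_UPB aUPA aFIB aDKG aBLE
theorem aBEX : T_BEX := Pool.Agent.H52.REM.pf_BEX
theorem aGQ : T_GQ := Pool.Agent.H52.REM.pf_GQ aHAD aGCH
theorem aCGI : T_CGI := Pool.Agent.H16.REM.pf_CGI
theorem aQM : T_QM := Pool.Agent.H90.REM.pf_QM aGQ aBEX aBLE
theorem aLBD : T_LBD := Pool.Agent.H52.REM.pf_LBD aHAD aGCH aBEX
theorem aLS : T_LS := Pool.Agent.H90.REM.pf_LS aQM aBEX aBLE aLBD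
theorem aIDV : T_IDV := Pool.Agent.H7.REM.pf_IDV
theorem aEMB : T_EMB := Pool.Agent.H51.REM.pf_EMB
theorem aLLF : T_LLF := Pool.Agent.H69.REM.pf_LLF
theorem aSLP : T_SLP := Pool.Agent.H49.REM.pf_SLP aLS aIDV aEMB aLLF aBEX aBLE
theorem aLOB : T_LOB := Pool.Agent.H50.REM.pf_LOB aBEX aBLE aGQ aCGI aSLP aEMB aLLF
theorem aINR : T_INR := Pool.Agent.H89.REM.pf_INR
theorem aINE : T_INE := Pool.Agent.H81.REM.pf_INE aUPB aLOB aINR aBEX
theorem aHTY : T_HTY := Pool.Agent.H86.REM.pf_HTY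
theorem aGHT : T_GHT := Pool.Agent.H16.REM.pf_GHT
theorem aGSP : T_GSP := Pool.Agent.H52.REM.pf_GSP
theorem aPIE : T_PIE := Pool.Agent.H52.REM.pf_PIE
theorem aEIS : T_EIS := Pool.Agent.H50.REM.pf_EIS
theorem aTOW : T_TOW := Pool.Agent.H49.REM.pf_TOW
theorem aDSK : T_DSK := Pool.Agent.H86.REM.pf_DSK aPIE aEIS aTOW
theorem aCYD : T_CYD := Pool.Agent.H86.REM.pf_CYD
theorem aDSC : T_DSC := Pool.Agent.H52.REM.pf_DSC aDSK aCYD aGSP
theorem aCGR : T_CGR := Pool.Agent.H52.REM.pf_CGR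
theorem aVLI : T_VLI := Pool.Agent.H69.REM.pf_VLI
theorem aEIV : T_EIV := Pool.Agent.H69.REM.pf_EIV
theorem aGQP : T_GQP := Pool.Agent.H49.REM.pf_GQP Pool.Agent.H24.RD.aVB
theorem aPDJ : T_PDJ :=
  Pool.Agent.H7.REM.pf_PDJ aVLI aEIV aPIE aGQP Pool.Agent.H29.LG.aUNK Pool.Agent.H24.RD.aVB
    Pool.Agent.H29.RQ.aPFX Pool.Agent.H29.SX.aFLD
theorem aSML : T_SML := Pool.Agent.H52.REM.pf_SML
theorem aMPB : T_MPB :=
  Pool.Agent.H46.REM.pf_MPB aCNT aRLN aNRM aEXI aINE aHTY aGHT aGSP aDSC aCGR aPDJ aSML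
    Pool.Agent.H24.RD.aHF
theorem aMPR : T_MPR := Pool.Agent.H51.REM.pf_MPR aMPB Pool.Agent.H24.RD.aHA Pool.Agent.H24.RD.aHB
theorem aLFT : T_LFT :=
  Pool.Agent.H49.REM.pf_LFT aVLI aGQP Pool.Agent.H29.LG.aUNK Pool.Agent.H24.RD.aVB
    Pool.Agent.H29.RQ.aPFX Pool.Agent.H29.SX.aFLD
theorem aADI : T_ADI :=
  Pool.Agent.H86.REM.pf_ADI aLFT aGQP Pool.Agent.H29.LG.aVIS Pool.Agent.H24.RD.aPF
    Pool.Agent.H24.RD.aHA Pool.Agent.H24.RD.aHB Pool.Agent.H24.RD.aVB Pool.Agent.H29.SX.aFLD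
theorem aADE : T_ADE := Pool.Agent.H49.REM.pf_ADE
theorem aFIN : T_FIN := Pool.Agent.H61.REM.pf_FIN aMPR aADI aADE Pool.Agent.H24.RD.aHB

end Pool.Agent.H26.REM
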