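import Pool.Agent.H26.REM.All
import Pool.Agent.H49.REM.LTF
import Pool.Agent.H52.REM.EMK
import Pool.Agent.H81.REM.GIU
import Pool.Agent.H81.REM.SLK
import Pool.Agent.H86.REM.LTV
import Pool.Agent.H90.REM.FLT
import Pool.Agent.H90.REM.GI
import Pool.Agent.H90.REM.LSK

set_option autoImplicit false

/-!
# MP_c65535_nt, uniform bounds for radicals of coprime levels: assembly of the general inequality
-/

namespace Pool.Agent.H26.REM

theorem aGIU : T_GIU := Pool.Agent.H81.REM.pf_GIU aBLE aFIB aDKG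
theorem aEMK : T_EMK := Pool.Agent.H52.REM.pf_EMK aEMB
theorem aFLT : T_FLT := Pool.Agent.H90.REM.pf_FLT aBEX aBLE aGQ aEMB aEMK
theorem aLSK : T_LSK := Pool.Agent.H90.REM.pf_LSK aQM aBEX aBLE aLBD
theorem aLTF : T_LTF := Pool.Agent.H49.REM.pf_LTF
theorem aLTV : T_LTV := Pool.Agent.H86.REM.pf_LTV aLTF
theorem aSLK : T_SLK := Pool.Agent.H81.REM.pf_SLK aLSK aLTF aLTV aEMB aBEX aBLE
theorem aGI : T_GI := Pool.Agent.H90.REM.pf_GI aGIU aFLT aSLK aBEX aEMK

end Pool.Agent.H26.REM
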