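import Mathlib

set_option autoImplicit false

/-!
# MP_c65535_nt, uniform bounds for radicals of coprime levels: definitions

Gram determinants, bases of lattices in rational vector spaces, the vectors of the weighted
conjugates of an element of a number field, tuples, monomials, and the levels.
-/

namespace Pool.Agent.H26.REM

open NumberField Height Finset Polynomial

/-- The absolute value of the Gram determinant of a family of vectors. -/
noncomputable def GD {E ι : Type} [NormedAddCommGroup E] [InnerProductSpace ℂ E] [Fintype ι]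
    [DecidableEq ι] (v : ι → E) : ℝ :=
  ‖(Matrix.gram ℂ v).det‖

/-- The family `z` is a basis of the group of the points of the lattice `L` in the subspace `U`. -/
def IsBas {V ι : Type} [AddCommGroup V] [Module ℚ V] (L : Submodule ℤ V) (U : Submodule ℚ V)
    (z : ι → V) : Prop :=
  LinearIndependent ℚ z ∧ Submodule.span ℚ (Set.range z) = U ∧
    ∀ x : V, x ∈ Submodule.span ℤ (Set.range z) ↔ x ∈ L ∧ x ∈ U

/-- Linearly independent vectors over `ℚ` have linearly independent images over `ℂ`. -/
def IsEm {V E : Type} [AddCommGroup V] [Module ℚ V] [NormedAddCommGroup E] [InnerProductSpace ℂ E]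
    (j : V →+ E) : Prop :=
  ∀ (k : ℕ) (z : Fin k → V), LinearIndependent ℚ z → LinearIndependent ℂ fun i => j (z i)

/-- The images of `x` under the complex embeddings, multiplied by the weights `w`. -/
noncomputable def vec (M : Type) [Field M] [NumberField M] (w : (M →+* ℂ) → ℝ) :
    M →+ EuclideanSpace ℂ (M →+* ℂ) where
  toFun x := WithLp.toLp 2 fun s => (w s : ℂ) * s x
  map_zero' := by
    ext s
    simp
  map_add' x y := by
    ext s
    simp [mul_add]

/-- The images of the two components under the complex embeddings, with the weights `w`, `w'`. -/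
noncomputable def vec2 (M : Type) [Field M] [NumberField M] (w w' : (M →+* ℂ) → ℝ) :
    M × M →+ EuclideanSpace ℂ ((M →+* ℂ) ⊕ (M →+* ℂ)) where
  toFun x := WithLp.toLp 2 (Sum.elim (fun s => (w s : ℂ) * s x.1) fun s => (w' s : ℂ) * s x.2)
  map_zero' := by
    ext s
    rcases s with s | s <;> simp
  map_add' x y := by
    ext s
    rcases s with s | s <;> simp [mul_add]

/-- The weights of a tuple: the inverses of the largest conjugates. -/
noncomputable def wt {M S : Type} [Field M] (Y : S → M) (s : M →+* ℂ) : ℝ :=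
  (⨆ b, ‖s (Y b)‖)⁻¹

/-- The fractional ideal generated by a tuple, as an additive group. -/
noncomputable def LL {M S : Type} [Field M] (Y : S → M) : Submodule ℤ M :=
  (Submodule.span (𝓞 M) (Set.range Y)).restrictScalars ℤ

/-- The values of a linear form and of its Frobenius twist. -/
noncomputable def lam {K M S : Type} [Field K] [Field M] [Algebra K M] [Fintype S] (φ : K ≃+* K)
    (p : ℕ) (Y : S → M) : (S → 𝓞 K) →+ M × M where
  toFun c := (∑ b, algebraMap K M (c b : K) * Y b, ∑ b, algebraMap K M (φ (c b : K)) * Y b ^ p)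
  map_zero' := by simp
  map_add' c d := by
    ext
    · simp [add_mul, Finset.sum_add_distrib]
    · simp [add_mul, Finset.sum_add_distrib]

/-- The lattice of the pairs of values. -/
noncomputable def Lam {K M S : Type} [Field K] [Field M] [Algebra K M] [Fintype S] (φ : K ≃+* K)
    (p : ℕ) (Y : S → M) : Submodule ℤ (M × M) :=
  LinearMap.range (lam φ p Y).toIntLinearMap

/-- The monomials with the coordinates `β`, `θ 0`, `θ 1`, ... -/
noncomputable def mon {M : Type} [Field M] {r : ℕ} (θ : Fin r → M) (β : M)
    (b : Fin (r + 1) → ℤ) : M :=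
  β ^ (b 0) * ∏ i, θ i ^ (b i.succ)

/-- The norm of the exponents, for the translates of `Γ_div`. -/
noncomputable def nrH {r : ℕ} (lam : ℝ) (H ξ : Fin r → ℝ) (b : Fin (r + 1) → ℤ) : ℝ :=
  |(b 0 : ℝ)| * lam + ∑ i, H i * |(b i.succ : ℝ) - b 0 * ξ i|

/-- The prime `q` is good for the radicals of `x`: the valuation of `x` at `q` is prime to `q`, or
`x` is a unit at `q` and `x ^ (q - 1)` is not congruent to one modulo `q ^ 2`. -/
def Good (q : ℕ) (x : ℚ) : Prop :=
  ¬ (q : ℤ) ∣ padicValRat q x ∨
    (padicValRat q x = 0 ∧ ¬ (q : ℤ) ^ 2 ∣ x.num ^ (q - 1) - (x.den : ℤ) ^ (q - 1))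

/-- The levels: `ζ` is a primitive `m`-th root of unity, `θ i` is an `N i`-th root of `a i`, the
numbers `m`, `N 0`, `N 1`, ... are pairwise coprime, and the primes dividing `N i` are good for
`a i`. -/
structure Lev {Ω : Type} [Field Ω] [CharZero Ω] {r : ℕ} (a : Fin r → ℚ) (m : ℕ) (N : Fin r → ℕ)
    (ζ : Ω) (θ : Fin r → Ω) : Prop where
  nz : ∀ i, a i ≠ 0
  m0 : 0 < m
  N0 : ∀ i, 0 < N i
  prim : IsPrimitiveRoot ζ m
  pow : ∀ i, θ i ^ N i = ((a i : ℚ) : Ω)
  copm : ∀ i, Nat.Coprime m (N i)
  cop : ∀ i j, i ≠ j → Nat.Coprime (N i) (N j)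
  good : ∀ (i : Fin r) (q : ℕ), q.Prime → q ∣ N i → Good q (a i)

/-- The sum of the heights of the `a i`. -/
noncomputable def hs {r : ℕ} (a : Fin r → ℚ) : ℝ := ∑ i, logHeight₁ (a i)

end Pool.Agent.H26.REM
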