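import Pool.Agent.H26.REM.Defs

set_option autoImplicit false

/-!
# MP_c65535_nt, uniform bounds for radicals of coprime levels: targets (all over Mathlib only)
-/

namespace Pool.Agent.H26.REM

open NumberField Height Finset Polynomial

/-! ## V. Gram determinants and lattices -/

/-- HAD: Hadamard's inequality for Gram determinants. -/
def T_HAD : Prop := ∀ (E : Type) [NormedAddCommGroup E] [InnerProductSpace ℂ E] (k : ℕ)
  (v : Fin k → E), GD v ≤ ∏ i, ‖v i‖ ^ 2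

/-- GCH: a change of the family by a complex matrix. -/
def T_GCH : Prop := ∀ (E : Type) [NormedAddCommGroup E] [InnerProductSpace ℂ E] (ι : Type)
  [Fintype ι] [DecidableEq ι] (v : ι → E) (A : Matrix ι ι ℂ),
  GD (fun i => ∑ l, A i l • v l) = ‖A.det‖ ^ 2 * GD v

/-- GQ: the Gram determinant of a quotient decreases under maps of norm at most one. -/
def T_GQ : Prop := ∀ (E E' : Type) [NormedAddCommGroup E] [InnerProductSpace ℂ E]
  [NormedAddCommGroup E'] [InnerProductSpace ℂ E'] (a b a' : ℕ) (v : Fin a → E) (u : Fin b → E)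
  (v' : Fin a' → E') (u' : Fin b → E') (T : E →ₗ[ℂ] E') (A : Matrix (Fin b) (Fin b) ℂ),
  LinearIndependent ℂ (Sum.elim v u) → LinearIndependent ℂ (Sum.elim v' u') →
  (∀ x, ‖T x‖ ≤ ‖x‖) → (∀ i, T (v i) ∈ Submodule.span ℂ (Set.range v')) → 1 ≤ ‖A.det‖ →
  (∀ j, T (u j) - ∑ l, A j l • u' l ∈ Submodule.span ℂ (Set.range v')) →
  GD (Sum.elim v' u') * GD v ≤ GD (Sum.elim v u) * GD v'

/-- BEX: a basis of the points of a lattice in a subspace exists, and a basis for a smaller subspace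
can be extended. -/
def T_BEX : Prop := ∀ (V : Type) [AddCommGroup V] [Module ℚ V] [FiniteDimensional ℚ V]
  (L : Submodule ℤ V), L.FG → ∀ X U : Submodule ℚ V, X ≤ U →
  U ≤ Submodule.span ℚ (L : Set V) →
  ∃ (a b : ℕ) (x : Fin a → V) (u : Fin b → V), IsBas L X x ∧ IsBas L U (Sum.elim x u)

/-- BLE: the Gram determinant of a basis is the smallest one. -/
def T_BLE : Prop := ∀ (V E ι κ : Type) [AddCommGroup V] [Module ℚ V] [NormedAddCommGroup E]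
  [InnerProductSpace ℂ E] [Fintype ι] [DecidableEq ι] [Fintype κ] [DecidableEq κ]
  (L : Submodule ℤ V) (U : Submodule ℚ V) (j : V →+ E) (z : ι → V) (z' : κ → V),
  IsBas L U z → LinearIndependent ℚ z' → (∀ i, z' i ∈ L ∧ z' i ∈ U) →
  Fintype.card κ = Fintype.card ι → GD (fun i => j (z i)) ≤ GD fun i => j (z' i)

/-- QM: the same for the lattice points of subspaces. -/
def T_QM : Prop := ∀ (V V' E E' : Type) [AddCommGroup V] [Module ℚ V] [FiniteDimensional ℚ V]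
  [AddCommGroup V'] [Module ℚ V'] [FiniteDimensional ℚ V'] [NormedAddCommGroup E]
  [InnerProductSpace ℂ E] [NormedAddCommGroup E'] [InnerProductSpace ℂ E'] (L : Submodule ℤ V)
  (L' : Submodule ℤ V') (j : V →+ E) (j' : V' →+ E'), IsEm j → IsEm j' → L.FG → L'.FG →
  ∀ (g : V →ₗ[ℚ] V') (T : E →ₗ[ℂ] E'), (∀ x, j' (g x) = T (j x)) → (∀ x, ‖T x‖ ≤ ‖x‖) →
  ∀ (X U : Submodule ℚ V) (X' U' : Submodule ℚ V'), X ≤ U → X' ≤ U' →
  U ≤ Submodule.span ℚ (L : Set V) → U' ≤ Submodule.span ℚ (L' : Set V') →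
  (∀ x ∈ U, g x ∈ U') → (∀ x ∈ U, (g x ∈ X' ↔ x ∈ X)) →
  Module.finrank ℚ U + Module.finrank ℚ X' = Module.finrank ℚ X + Module.finrank ℚ U' →
  (∀ x ∈ L, x ∈ U → g x ∈ L') →
  ∀ (ιX ιU ιX' ιU' : Type) [Fintype ιX] [DecidableEq ιX] [Fintype ιU] [DecidableEq ιU]
  [Fintype ιX'] [DecidableEq ιX'] [Fintype ιU'] [DecidableEq ιU'] (x : ιX → V) (z : ιU → V)
  (x' : ιX' → V') (z' : ιU' → V'), IsBas L X x → IsBas L U z → IsBas L' X' x' → IsBas L' U' z' →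
  GD (fun i => j' (z' i)) * GD (fun i => j (x i)) ≤
    GD (fun i => j (z i)) * GD fun i => j' (x' i)

/-- LBD: the Gram determinants are bounded below. -/
def T_LBD : Prop := ∀ (V E : Type) [AddCommGroup V] [Module ℚ V] [FiniteDimensional ℚ V]
  [NormedAddCommGroup E] [InnerProductSpace ℂ E] (L : Submodule ℤ V) (j : V →+ E), IsEm j → L.FG →
  ∃ c : ℝ, 0 < c ∧ ∀ (U : Submodule ℚ V) (k : ℕ) (z : Fin k → V), IsBas L U z →
    c ≤ GD fun i => j (z i)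

/-- LS: Lemma S. All subspaces have a large Gram determinant if the space has one and there are many
maps of norm at most one. -/
def T_LS : Prop := ∀ (V E E' : Type) [AddCommGroup V] [Module ℚ V] [FiniteDimensional ℚ V]
  [NormedAddCommGroup E] [InnerProductSpace ℂ E] [NormedAddCommGroup E'] [InnerProductSpace ℂ E']
  (L L' : Submodule ℤ V) (j : V →+ E) (j' : V →+ E'), IsEm j → IsEm j' → L.FG → L'.FG →
  Submodule.span ℚ (L : Set V) = ⊤ → Submodule.span ℚ (L' : Set V) = ⊤ →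
  ∀ (t : ℕ) (g : Fin t → V →ₗ[ℚ] V) (T : Fin t → E →ₗ[ℂ] E'),
  (∀ i x, j' (g i x) = T i (j x)) → (∀ i x, ‖T i x‖ ≤ ‖x‖) → (∀ i, Function.Injective (g i)) →
  (∀ i, ∀ x ∈ L, g i x ∈ L') → (∀ U : Submodule ℚ V, U ≠ ⊥ → ⨆ i, U.map (g i) = ⊤) →
  ∀ (k' : ℕ) (z' : Fin k' → V), IsBas L' ⊤ z' →
  ∀ (U : Submodule ℚ V) (k : ℕ) (z : Fin k → V), IsBas L U z →
  GD (fun i => j' (z' i)) ^ k ≤ GD (fun i => j (z i)) ^ Module.finrank ℚ V

/-- FIB: the Gram determinant of a family of products splits over the fibres. -/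
def T_FIB : Prop := ∀ (X Tau : Type) [Fintype X] [Fintype Tau] [DecidableEq Tau] (π : X → Tau)
  (g r N0 : ℕ) (e : Fin g ≃ Tau) (a : Fin g → Tau → ℂ) (v : Fin r → X → ℂ),
  (∀ j x, ‖v j x‖ ≤ 1) → (∀ τ, Nat.card {x : X // π x = τ} ≤ N0) →
  GD (fun l : Fin g × Fin r =>
      (WithLp.toLp 2 fun x => a l.1 (π x) * v l.2 x : EuclideanSpace ℂ X)) ≤
    ‖(Matrix.of fun k l : Fin g => a k (e l)).det‖ ^ (2 * r) * (N0 : ℝ) ^ (g * r)

/-! ## N. Number fields -/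

/-- EMB: the vectors of the weighted conjugates. -/
def T_EMB : Prop := ∀ (M : Type) [Field M] [NumberField M] (w w' : (M →+* ℂ) → ℝ),
  (∀ s, 0 < w s) → (∀ s, 0 < w' s) → IsEm (vec M w) ∧ IsEm (vec2 M w w')

/-- IDV: the Gram determinant of the fractional ideal generated by a tuple. -/
def T_IDV : Prop := ∀ (M : Type) [Field M] [NumberField M] (S : Type) [Finite S] (Y : S → M),
  Y ≠ 0 → ∀ (k : ℕ) (z : Fin k → M), IsBas (LL Y) ⊤ z →
  GD (fun i => vec M (wt Y) (z i)) = |(discr M : ℝ)| * Real.exp (-2 * logHeight Y)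

/-- LLF: the lattice of a tuple is a lattice. -/
def T_LLF : Prop := ∀ (M : Type) [Field M] [NumberField M] (S : Type) [Finite S] (Y : S → M),
  Y ≠ 0 → (LL Y).FG ∧ Submodule.span ℚ (LL Y : Set M) = ⊤ ∧ ∀ s : M →+* ℂ, 0 < wt Y s

/-- SLP: Lemma S for the elements of the ideal of a tuple. -/
def T_SLP : Prop := ∀ (M : Type) [Field M] [NumberField M] (S T : Type) [Finite S] [Finite T]
  (Y : S → M) (G : T → M), Y ≠ 0 → (∀ t, G t ≠ 0) → Submodule.span ℚ (Set.range G) = ⊤ →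
  ∀ (k : ℕ) (z : Fin k → M), LinearIndependent ℚ z → (∀ i, z i ∈ LL Y) →
  Real.exp ((k : ℝ) / Module.finrank ℚ M *
      (Real.log |(discr M : ℝ)| - 2 * logHeight Y - 2 * logHeight G)) ≤
    GD fun i => vec M (wt Y) (z i)

/-- CGI: the Frobenius congruence. -/
def T_CGI : Prop := ∀ (K M : Type) [Field K] [NumberField K] [Field M] [NumberField M]
  [Algebra K M] (φ : K ≃+* K) (p : ℕ), p.Prime →
  (∀ c : 𝓞 K, ∃ d : 𝓞 K, φ (c : K) = (c : K) ^ p + p * (d : K)) →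
  ∀ (S : Type) [Fintype S] (Y : S → M) (c : S → 𝓞 K), (lam φ p Y c).1 = 0 →
  ∃ w ∈ LL fun b => Y b ^ p, (lam φ p Y c).2 = p * w

/-- DKG: an integral basis and the discriminant. -/
def T_DKG : Prop := ∀ (K : Type) [Field K] [NumberField K],
  ∃ (ω : Fin (Module.finrank ℚ K) → 𝓞 K) (e : Fin (Module.finrank ℚ K) ≃ (K →+* ℂ)),
  (LinearIndependent ℚ fun l => (ω l : K)) ∧
  (∀ c : 𝓞 K, ∃ n : Fin (Module.finrank ℚ K) → ℤ, c = ∑ l, (n l : 𝓞 K) * ω l) ∧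
  ‖(Matrix.of fun k l => e l (ω k : K)).det‖ ^ 2 = |(discr K : ℝ)|

/-- UPA: a family of maximal rank in the lattice of the pairs. -/
def T_UPA : Prop := ∀ (K M : Type) [Field K] [NumberField K] [Field M] [NumberField M]
  [Algebra K M] (φ : K ≃+* K) (p : ℕ) (S : Type) [Fintype S] (Y : S → M)
  (ω : Fin (Module.finrank ℚ K) → 𝓞 K), (LinearIndependent ℚ fun l => (ω l : K)) →
  ∃ (r : ℕ) (b : Fin r → S),
    (LinearIndependent ℚ fun l : Fin (Module.finrank ℚ K) × Fin r =>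
      (algebraMap K M (ω l.1 : K) * Y (b l.2),
        algebraMap K M (φ (ω l.1 : K)) * Y (b l.2) ^ p)) ∧
    (∀ l : Fin (Module.finrank ℚ K) × Fin r, (algebraMap K M (ω l.1 : K) * Y (b l.2),
        algebraMap K M (φ (ω l.1 : K)) * Y (b l.2) ^ p) ∈ Lam φ p Y) ∧
    Module.finrank ℚ (Submodule.span ℚ (Lam φ p Y : Set (M × M))) = Module.finrank ℚ K * r

/-- INR: the rank of the lattice of the pairs. -/
def T_INR : Prop := ∀ (K M : Type) [Field K] [NumberField K] [Field M] [NumberField M]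
  [Algebra K M] (φ : K ≃+* K) (p : ℕ) (S : Type) [Fintype S] (Y : S → M) (r2 : ℕ)
  (c : Fin r2 → S → K), (∀ i, ∑ b, algebraMap K M (c i b) * Y b = 0) →
  (LinearIndependent K fun i => ∑ b, algebraMap K M (φ (c i b)) * Y b ^ p) →
  Module.finrank ℚ K * (Module.finrank K (Submodule.span K (Set.range Y)) + r2) ≤
    Module.finrank ℚ (Submodule.span ℚ (Lam φ p Y : Set (M × M)))

/-- UPB: the upper bound for the Gram determinant of the lattice of the pairs. -/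
def T_UPB : Prop := ∀ (K M : Type) [Field K] [NumberField K] [Field M] [NumberField M]
  [Algebra K M] (φ : K ≃+* K) (p : ℕ) (S : Type) [Fintype S] (Y : S → M), Y ≠ 0 →
  ∀ (k : ℕ) (z : Fin k → M × M),
  IsBas (Lam φ p Y) (Submodule.span ℚ (Lam φ p Y : Set (M × M))) z →
  ∃ r : ℕ, k = Module.finrank ℚ K * r ∧
    GD (fun i => vec2 M (wt Y) (wt fun b => Y b ^ p) (z i)) ≤
      |(discr K : ℝ)| ^ r * (2 * Module.finrank K M : ℝ) ^ (Module.finrank ℚ K * r)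

/-- LOB: the lower bound for the Gram determinant of the lattice of the pairs. -/
def T_LOB : Prop := ∀ (K M : Type) [Field K] [NumberField K] [Field M] [NumberField M]
  [Algebra K M] (φ : K ≃+* K) (p : ℕ), p.Prime →
  (∀ c : 𝓞 K, ∃ d : 𝓞 K, φ (c : K) = (c : K) ^ p + p * (d : K)) →
  ∀ (S T : Type) [Fintype S] [Fintype T] (Y : S → M) (G : T → M), Y ≠ 0 → (∀ t, G t ≠ 0) →
  Submodule.span ℚ (Set.range G) = ⊤ → ∀ (k : ℕ) (z : Fin k → M × M),
  IsBas (Lam φ p Y) (Submodule.span ℚ (Lam φ p Y : Set (M × M))) z →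
  ∃ k1 k2 : ℕ, k = k1 + k2 ∧
    k1 = Module.finrank ℚ K * Module.finrank K (Submodule.span K (Set.range Y)) ∧
    Real.exp ((k1 : ℝ) / Module.finrank ℚ M *
        (Real.log |(discr M : ℝ)| - 2 * logHeight Y - 2 * logHeight G)) *
      ((p : ℝ) ^ (2 * k2) * Real.exp ((k2 : ℝ) / Module.finrank ℚ M *
        (Real.log |(discr M : ℝ)| - 2 * (p * logHeight Y) - 2 * logHeight G))) ≤
      GD fun i => vec2 M (wt Y) (wt fun b => Y b ^ p) (z i)

/-- INE: the main inequality. -/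
def T_INE : Prop := ∀ (K M : Type) [Field K] [NumberField K] [Field M] [NumberField M]
  [Algebra K M] (φ : K ≃+* K) (p : ℕ), p.Prime →
  (∀ c : 𝓞 K, ∃ d : 𝓞 K, φ (c : K) = (c : K) ^ p + p * (d : K)) →
  |(discr K : ℝ)| ^ Module.finrank K M * (Module.finrank K M : ℝ) ^ Module.finrank ℚ M ≤
    |(discr M : ℝ)| →
  ∀ (S T : Type) [Fintype S] [Fintype T] (Y : S → M) (G : T → M), Y ≠ 0 → (∀ t, G t ≠ 0) →
  Submodule.span ℚ (Set.range G) = ⊤ → ∀ (r2 : ℕ) (c : Fin r2 → S → K),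
  (∀ i, ∑ b, algebraMap K M (c i b) * Y b = 0) →
  (LinearIndependent K fun i => ∑ b, algebraMap K M (φ (c i b)) * Y b ^ p) →
  (r2 : ℝ) * (Real.log p - p * (logHeight Y / Module.finrank ℚ M) -
      (Real.log 2 / 2 + logHeight G / Module.finrank ℚ M)) ≤
    Module.finrank K (Submodule.span K (Set.range Y)) *
      (Real.log 2 / 2 + logHeight G / Module.finrank ℚ M + logHeight Y / Module.finrank ℚ M)

/-! ## H. Heights and counting -/

/-- CNT: many exponents of small norm. -/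
def T_CNT : Prop := ∀ r : ℕ, ∃ c : ℝ, 0 < c ∧ ∀ (lam σ : ℝ) (H ξ : Fin r → ℝ), 0 < lam →
  (∀ i, 0 < H i) → 0 < σ → ∃ S : Finset (Fin (r + 1) → ℤ), (∀ b ∈ S, nrH lam H ξ b ≤ σ) ∧
    c * σ ^ (r + 1) / (lam * ∏ i, H i) ≤ S.card

/-- NRM: the norm of the exponents is a norm with finite balls. -/
def T_NRM : Prop := ∀ (r : ℕ) (lam : ℝ) (H ξ : Fin r → ℝ), 0 < lam → (∀ i, 0 < H i) →
  (∀ b, nrH lam H ξ (-b) = nrH lam H ξ b) ∧
  (∀ b c, nrH lam H ξ (b + c) ≤ nrH lam H ξ b + nrH lam H ξ c) ∧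
  (∀ (q : ℕ) b, nrH lam H ξ (q • b) = q * nrH lam H ξ b) ∧
  ∀ ρ : ℝ, {b | nrH lam H ξ b ≤ ρ}.Finite

/-- HTY: the height of a tuple of monomials. -/
def T_HTY : Prop := ∀ (M : Type) [Field M] [NumberField M] (r : ℕ) (β : M) (θ : Fin r → M) (k : ℕ)
  (e : Fin r → ℤ), β ≠ 0 → (∀ i, θ i ≠ 0) → 0 < k → ∀ (lam : ℝ) (H : Fin r → ℝ), 0 < lam →
  (∀ i, 0 < H i) → logHeight₁ (β ^ k * ∏ i, θ i ^ e i) ≤ k * lam * Module.finrank ℚ M →
  (∀ i, logHeight₁ (θ i) ≤ H i * Module.finrank ℚ M) →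
  ∀ (ρ : ℝ) (S : Finset (Fin (r + 1) → ℤ)), 0 ≤ ρ → S.Nonempty →
  (∀ b ∈ S, nrH lam H (fun i => (e i : ℝ) / k) b ≤ ρ) →
  logHeight (fun b : S => mon θ β b) ≤ 2 * (r + 1) * ρ * Module.finrank ℚ M

/-- GHT: the height of the tuple of the small monomials. -/
def T_GHT : Prop := ∀ (M : Type) [Field M] [NumberField M] (r m : ℕ) (N : Fin r → ℕ) (ζ : M)
  (θ : Fin r → M), 0 < m → (∀ i, 0 < N i) → ζ ^ m = 1 → (∀ i, θ i ≠ 0) →
  logHeight (fun j : Fin m × (∀ i, Fin (N i)) => ζ ^ (j.1 : ℕ) * ∏ i, θ i ^ (j.2 i : ℕ)) ≤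
    ∑ i, (N i : ℝ) * logHeight₁ (θ i)

/-- GSP: the small monomials span. -/
def T_GSP : Prop := ∀ (M : Type) [Field M] [NumberField M] (r m : ℕ) (a : Fin r → ℚ)
  (N : Fin r → ℕ) (ζ : M) (θ : Fin r → M), Lev a m N ζ θ →
  IntermediateField.adjoin ℚ (insert ζ (Set.range θ)) = ⊤ →
  Submodule.span ℚ (Set.range fun j : Fin m × (∀ i, Fin (N i)) =>
    ζ ^ (j.1 : ℕ) * ∏ i, θ i ^ (j.2 i : ℕ)) = ⊤ ∧
  Module.finrank (IntermediateField.adjoin ℚ {ζ}) M ≤ ∏ i, N i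

/-- SML: small relations between the radicals. -/
def T_SML : Prop := ∀ (M : Type) [Field M] [CharZero M] (r : ℕ) (a : Fin r → ℚ) (N : Fin r → ℕ)
  (θ : Fin r → M), (∀ i, a i ≠ 0 ∧ a i ≠ 1 ∧ a i ≠ -1) → (∀ i, 0 < N i) →
  (∀ i j, i ≠ j → Nat.Coprime (N i) (N j)) → (∀ i, θ i ^ N i = ((a i : ℚ) : M)) →
  ∀ (b : Fin r → ℤ) (t : ℕ), 0 < t → (∏ i, θ i ^ b i) ^ t = 1 → ∀ i, b i ≠ 0 →
  (N i : ℝ) * Real.log 2 ≤ |(b i : ℝ)| * logHeight₁ (a i)

/-! ## F. Arithmetic of the levels -/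

/-- EIS: radicals of prime power level. -/
def T_EIS : Prop := ∀ (q k : ℕ) (A : ℤ), q.Prime → 1 ≤ k →
  ((q : ℤ) ∣ A ∧ ¬ (q : ℤ) ^ 2 ∣ A ∨ ¬ (q : ℤ) ∣ A ∧ ¬ (q : ℤ) ^ 2 ∣ A ^ (q - 1) - 1) →
  ∀ (E : Type) [Field E] [NumberField E] (π : E), IntermediateField.adjoin ℚ {π} = ⊤ →
  π ^ (q ^ k) = (A : E) →
  Module.finrank ℚ E = q ^ k ∧ (q : ℤ) ^ (k * q ^ k) ∣ discr E

/-- PIE: the radicals in the level field. -/
def T_PIE : Prop := ∀ (M : Type) [Field M] [CharZero M] (x : ℚ) (n q k : ℕ) (θ : M), x ≠ 0 →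
  q.Prime → 1 ≤ k → q ^ k ∣ n → 0 < n → θ ^ n = (x : M) → Good q x →
  ∃ (A : ℤ) (π : M), π ∈ IntermediateField.adjoin ℚ {θ} ∧ π ^ (q ^ k) = (A : M) ∧
    ((q : ℤ) ∣ A ∧ ¬ (q : ℤ) ^ 2 ∣ A ∨ ¬ (q : ℤ) ∣ A ∧ ¬ (q : ℤ) ^ 2 ∣ A ^ (q - 1) - 1)

/-- TOW: discriminants in towers. -/
def T_TOW : Prop := ∀ (K M : Type) [Field K] [NumberField K] [Field M] [NumberField M]
  [Algebra K M], (discr K) ^ Module.finrank K M ∣ discr M

/-- CYD: primes which do not divide the order are unramified. -/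
def T_CYD : Prop := ∀ (M : Type) [Field M] [NumberField M] (m : ℕ) (ζ : M), 0 < m →
  IsPrimitiveRoot ζ m → ∀ q : ℕ, q.Prime → ¬ q ∣ m →
  ¬ (q : ℤ) ∣ discr (IntermediateField.adjoin ℚ {ζ})

/-- DSC: the discriminant of the level field is as large as possible. -/
def T_DSC : Prop := ∀ (M : Type) [Field M] [NumberField M] (r m : ℕ) (a : Fin r → ℚ)
  (N : Fin r → ℕ) (ζ : M) (θ : Fin r → M), Lev a m N ζ θ →
  IntermediateField.adjoin ℚ (insert ζ (Set.range θ)) = ⊤ →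
  |(discr (IntermediateField.adjoin ℚ {ζ}) : ℝ)| ^
      Module.finrank (IntermediateField.adjoin ℚ {ζ}) M *
    (Module.finrank (IntermediateField.adjoin ℚ {ζ}) M : ℝ) ^ Module.finrank ℚ M ≤
    |(discr M : ℝ)|

/-- CGR: the Frobenius automorphism of a cyclotomic field. -/
def T_CGR : Prop := ∀ (M : Type) [Field M] [NumberField M] (m : ℕ) (ζ : M), 0 < m →
  IsPrimitiveRoot ζ m → ∀ p : ℕ, p.Prime → ¬ p ∣ m →
  ∃ φ : IntermediateField.adjoin ℚ {ζ} ≃+* IntermediateField.adjoin ℚ {ζ},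
  ∀ c : 𝓞 (IntermediateField.adjoin ℚ {ζ}), ∃ d : 𝓞 (IntermediateField.adjoin ℚ {ζ}),
    φ (c : IntermediateField.adjoin ℚ {ζ}) = (c : IntermediateField.adjoin ℚ {ζ}) ^ p +
      p * (d : IntermediateField.adjoin ℚ {ζ})

/-- VLI: elements with values which are different modulo the value group are independent. -/
def T_VLI : Prop := ∀ (M1 M : Type) [Field M1] [Field M] [Algebra M1 M] (v : AbsoluteValue M ℝ),
  IsNonarchimedean v → ∀ c : ℝ, 0 < c → c < 1 →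
  (∀ x : M1, x ≠ 0 → ∃ n : ℤ, v (algebraMap M1 M x) = c ^ n) →
  ∀ (ι : Type) [Fintype ι] (x : ι → M) (t : ι → ℝ), (∀ i, v (x i) = c ^ t i) →
  (∀ i j, i ≠ j → ∀ n : ℤ, t i - t j ≠ n) → LinearIndependent M1 x

/-- EIV: the value of a zero of an Eisenstein polynomial. -/
def T_EIV : Prop := ∀ (M : Type) [Field M] [CharZero M] (v : AbsoluteValue M ℝ),
  IsNonarchimedean v → ∀ (p k : ℕ) (A : ℤ) (π : M), p.Prime → 1 ≤ k → 0 < v (p : M) →
  v (p : M) < 1 → (∀ m : ℕ, ¬ p ∣ m → v (m : M) = 1) → ¬ (p : ℤ) ∣ A →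
  ¬ (p : ℤ) ^ 2 ∣ A ^ (p - 1) - 1 → π ^ (p ^ k) = (A : M) →
  v (π - (A : M)) ^ (p ^ k) = v (p : M)

/-- PDJ: the cyclotomic polynomial is irreducible over the level field. -/
def T_PDJ : Prop := ∀ (M : Type) [Field M] [NumberField M] (r m : ℕ) (a : Fin r → ℚ)
  (N : Fin r → ℕ) (ζ : M) (θ : Fin r → M), Lev a m N ζ θ →
  IntermediateField.adjoin ℚ (insert ζ (Set.range θ)) = ⊤ → ∀ p : ℕ, p.Prime → ¬ p ∣ m →
  (∀ i, padicValRat p (a i) = 0) → Irreducible (cyclotomic p M)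

end Pool.Agent.H26.REM
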