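import Pool.Agent.H26.REM.Targets
import Pool.Agent.H29.LG.Targets

set_option autoImplicit false

/-!
# MP_c65535_nt, uniform bounds for radicals of coprime levels: targets which use the library of
`AllRadicals`
-/

namespace Pool.Agent.H26.REM

open NumberField Height Finset Polynomial Pool.Agent.H24.RD Pool.Agent.H23.RDD Pool.Agent.H29.RQ
  Pool.Agent.H29.SX Pool.Agent.H29.LG

/-- DIM: linear disjointness of a field and of the field of the `p`-th roots of unity. -/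
def T_DIM : Prop := ∀ (K M Ω : Type) [Field K] [Field M] [CharZero M] [Field Ω] [Algebra K M]
  [Algebra M Ω] [Algebra K Ω] [IsScalarTower K M Ω] (p : ℕ), p.Prime →
  Irreducible (cyclotomic p M) → ∀ ζ : Ω, IsPrimitiveRoot ζ p → ∀ (k : ℕ) (x : Fin k → M),
  LinearIndependent K x →
  LinearIndependent (IntermediateField.adjoin K {ζ}) fun i => algebraMap M Ω (x i)

/-- RLN: a relation exists if there are many monomials. -/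
def T_RLN : Prop := ∀ (K M : Type) [Field K] [Field M] [Algebra K M] [FiniteDimensional K M]
  (m : ℕ) (y : (Fin m → ℤ) → M) (N : (Fin m → ℤ) → ℝ) (σ : ℝ) (S : Finset (Fin m → ℤ)),
  (∀ b ∈ S, N b ≤ σ) → Module.finrank K M < S.card →
  ∃ f : (Fin m → ℤ) →₀ K, f ≠ 0 ∧ Spt N σ f ∧ ev K y f = 0

/-- EXA: if the twisted `p`-th power of a point with trivial stabiliser satisfies all the relations
of the point, its monomials are roots of unity. -/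
def T_EXA : Prop := ∀ (K M Ω : Type) [Field K] [NumberField K] [Field M] [NumberField M]
  [Field Ω] [CharZero Ω] [IsAlgClosed Ω] [Algebra.IsAlgebraic ℚ Ω] [Algebra K M] [Algebra M Ω]
  [Algebra K Ω] [IsScalarTower K M Ω] (p : ℕ), p.Prime → Irreducible (cyclotomic p M) →
  ∀ ζ : Ω, IsPrimitiveRoot ζ p → ∀ (φ : K ≃+* K) (m : ℕ) (y : (Fin m → ℤ) → M)
  (N : (Fin m → ℤ) → ℝ) (σ ρ : ℝ), IsPt y → IsNm N → 0 ≤ σ →
  AddSubgroup.closure {a : Fin m → ℤ | N a ≤ σ} = ⊤ →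
  (∀ q : ℕ, q.Prime →
    StabT (IntermediateField.adjoin K {ζ}) q (fun a => algebraMap M Ω (y a)) N σ) →
  8 * ((m * (p : ℝ) + (p : ℝ) ^ m) * σ) ≤ ρ →
  (∀ f : (Fin m → ℤ) →₀ K, Spt N ρ f → ev K y f = 0 →
    f.sum (fun a c => algebraMap K M (φ c) * y a ^ p) = 0) →
  ∀ a, N a ≤ ρ → ∃ n : ℕ, 0 < n ∧ y a ^ n = 1

/-- EXB: otherwise there are many relations. -/
def T_EXB : Prop := ∀ (K M Ω : Type) [Field K] [NumberField K] [Field M] [NumberField M]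
  [Field Ω] [CharZero Ω] [Algebra K M] [Algebra M Ω]
  [Algebra K Ω] [IsScalarTower K M Ω] (p : ℕ), p.Prime → 3 ≤ p → Irreducible (cyclotomic p M) →
  ∀ ζ : Ω, IsPrimitiveRoot ζ p → ∀ (φ : K ≃+* K) (m : ℕ) (y : (Fin m → ℤ) → M)
  (N : (Fin m → ℤ) → ℝ) (σ ρ : ℝ), IsPt y → IsNm N → 0 ≤ σ →
  AddSubgroup.closure {a : Fin m → ℤ | N a ≤ σ} = ⊤ →
  StabT (IntermediateField.adjoin K {ζ}) p (fun a => algebraMap M Ω (y a)) N σ →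
  (m * (p : ℝ) + (p : ℝ) ^ m) * σ ≤ ρ →
  ∀ f : (Fin m → ℤ) →₀ K, Spt N ρ f → ev K y f = 0 →
  f.sum (fun a c => algebraMap K M (φ c) * y a ^ p) ≠ 0 →
  ∃ (S : Finset (Fin m → ℤ)) (r2 : ℕ) (c : Fin r2 → S → K), S.Nonempty ∧
    (∀ b ∈ S, N b ≤ 2 * ρ + m * σ) ∧
    (∀ i, ∑ b : S, algebraMap K M (c i b) * y b = 0) ∧
    (LinearIndependent K fun i => ∑ b : S, algebraMap K M (φ (c i b)) * y b ^ p) ∧
    Module.finrank K (Submodule.span K (Set.range fun b : S => y b)) ≤ r2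

/-- EXI: either there is a small torsion relation or there are many relations of `y` which are not
relations of its twisted `p`-th power. -/
def T_EXI : Prop := ∀ (K M : Type) [Field K] [NumberField K] [Field M] [NumberField M]
  [Algebra K M] (p : ℕ), p.Prime → 3 ≤ p → Irreducible (cyclotomic p M) →
  ∀ (φ : K ≃+* K) (m : ℕ) (y : (Fin m → ℤ) → M) (N : (Fin m → ℤ) → ℝ) (σ : ℝ), IsPt y → IsNm N →
  0 ≤ σ → (∃ f : (Fin m → ℤ) →₀ K, f ≠ 0 ∧ Spt N σ f ∧ ev K y f = 0) →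
  (∃ b, b ≠ 0 ∧ N b ≤ 2 * σ ∧ ∃ n : ℕ, 0 < n ∧ y b ^ n = 1) ∨
  ∃ (S : Finset (Fin m → ℤ)) (r2 : ℕ) (c : Fin r2 → S → K), S.Nonempty ∧
    (∀ b ∈ S, N b ≤ 48 * (m * p + (p : ℝ) ^ m) * σ) ∧
    (∀ i, ∑ b : S, algebraMap K M (c i b) * y b = 0) ∧
    (LinearIndependent K fun i => ∑ b : S, algebraMap K M (φ (c i b)) * y b ^ p) ∧
    Module.finrank K (Submodule.span K (Set.range fun b : S => y b)) ≤ r2

/-- ADI: the inertia group at a prime which divides the order of the root of unity. -/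
def T_ADI : Prop := ∀ (Ω : Type) [Field Ω] [CharZero Ω] [IsAlgClosed Ω] [Algebra.IsAlgebraic ℚ Ω]
  (r m : ℕ) (a : Fin r → ℚ) (N : Fin r → ℕ) (ζ : Ω) (θ : Fin r → Ω), Lev a m N ζ θ →
  ∀ p : ℕ, p.Prime → 3 ≤ p → p ∣ m → (∀ i, padicValRat p (a i) = 0) →
  ∀ β ∈ IntermediateField.adjoin ℚ (insert ζ (Set.range θ)), ∀ (γ : Ω) (k : ℕ) (e : Fin r → ℤ),
  0 < k → γ ^ k = ∏ i, ((a i : ℚ) : Ω) ^ e i → β ≠ 0 →
  absLogHeight₁ (β * γ) < Real.log (p / 2) / (2 * p) →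
  ∀ τ : Ω ≃ₐ[ℚ] Ω, τ (ζ ^ p) = ζ ^ p → (∀ i, τ (θ i) = θ i) → (τ β) ^ p = β ^ p

/-- ADE: the descent. -/
def T_ADE : Prop := ∀ (Ω : Type) [Field Ω] [CharZero Ω] [IsAlgClosed Ω] [Algebra.IsAlgebraic ℚ Ω]
  (r m : ℕ) (ζ : Ω) (θ : Fin r → Ω), 0 < m → IsPrimitiveRoot ζ m →
  ∀ p : ℕ, p.Prime → 3 ≤ p → p ∣ m →
  ∀ β ∈ IntermediateField.adjoin ℚ (insert ζ (Set.range θ)), β ≠ 0 →
  (∀ τ : Ω ≃ₐ[ℚ] Ω, τ (ζ ^ p) = ζ ^ p → (∀ i, τ (θ i) = θ i) → (τ β) ^ p = β ^ p) →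
  ∃ (η : Ω) (t : ℕ), 0 < t ∧ η ^ t = 1 ∧
    η * β ∈ IntermediateField.adjoin ℚ (insert (ζ ^ p) (Set.range θ))

/-- MPB: the theorem for the levels prime to `p`, inside the level field. -/
def T_MPB : Prop := ∀ (r : ℕ) (a : Fin r → ℚ), (∀ i, a i ≠ 0 ∧ a i ≠ 1 ∧ a i ≠ -1) →
  ∀ p : ℕ, p.Prime → 3 ≤ p → (∀ i, padicValRat p (a i) = 0) →
  Real.log 2 + 2 * hs a + 1 ≤ Real.log p →
  ∃ c : ℝ, 0 < c ∧ ∀ (M : Type) [Field M] [NumberField M] (m : ℕ) (N : Fin r → ℕ) (ζ : M)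
  (θ : Fin r → M), Lev a m N ζ θ → IntermediateField.adjoin ℚ (insert ζ (Set.range θ)) = ⊤ →
  ¬ p ∣ m → ∀ (β : M) (k : ℕ) (e : Fin r → ℤ), β ≠ 0 → 0 < k →
  (¬ ∃ (n : ℕ) (x : Fin r → ℤ), 0 < n ∧ β ^ n = ∏ i, ((a i : ℚ) : M) ^ x i) →
  c * (k * Module.finrank ℚ M) ≤ logHeight₁ (β ^ k * ∏ i, ((a i : ℚ) : M) ^ e i)

/-- MPR: the theorem for the levels prime to `p`. -/
def T_MPR : Prop := ∀ (Ω : Type) [Field Ω] [CharZero Ω] [IsAlgClosed Ω] [Algebra.IsAlgebraic ℚ Ω]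
  (r : ℕ) (a : Fin r → ℚ), (∀ i, a i ≠ 0 ∧ a i ≠ 1 ∧ a i ≠ -1) → ∀ p : ℕ, p.Prime → 3 ≤ p →
  (∀ i, padicValRat p (a i) = 0) → Real.log 2 + 2 * hs a + 1 ≤ Real.log p →
  ∃ c : ℝ, 0 < c ∧ ∀ (m : ℕ) (N : Fin r → ℕ) (ζ : Ω) (θ : Fin r → Ω), Lev a m N ζ θ → ¬ p ∣ m →
  ∀ β ∈ IntermediateField.adjoin ℚ (insert ζ (Set.range θ)), ∀ (γ : Ω) (k : ℕ) (e : Fin r → ℤ),
  0 < k → γ ^ k = ∏ i, ((a i : ℚ) : Ω) ^ e i → β ≠ 0 →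
  (¬ ∃ (n : ℕ) (x : Fin r → ℤ), 0 < n ∧ (β * γ) ^ n = ∏ i, ((a i : ℚ) : Ω) ^ x i) →
  c ≤ absLogHeight₁ (β * γ)

/-- FIN: the theorem. -/
def T_FIN : Prop := ∀ (Ω : Type) [Field Ω] [CharZero Ω] [IsAlgClosed Ω] [Algebra.IsAlgebraic ℚ Ω]
  (r : ℕ) (a : Fin r → ℚ), (∀ i, a i ≠ 0 ∧ a i ≠ 1 ∧ a i ≠ -1) →
  ∃ c : ℝ, 0 < c ∧ ∀ (m : ℕ) (N : Fin r → ℕ) (ζ : Ω) (θ : Fin r → Ω), Lev a m N ζ θ →
  ∀ β ∈ IntermediateField.adjoin ℚ (insert ζ (Set.range θ)), ∀ (γ : Ω) (k : ℕ) (e : Fin r → ℤ),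
  0 < k → γ ^ k = ∏ i, ((a i : ℚ) : Ω) ^ e i → β ≠ 0 →
  (¬ ∃ (n : ℕ) (x : Fin r → ℤ), 0 < n ∧ (β * γ) ^ n = ∏ i, ((a i : ℚ) : Ω) ^ x i) →
  c ≤ absLogHeight₁ (β * γ)

end Pool.Agent.H26.REM
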