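import Pool.Agent.H26.REM.Targets

set_option autoImplicit false

/-!
# MP_c65535_nt, uniform bounds for radicals of coprime levels, all degrees: volumes

Lemma S for subspaces over a subfield, lattices given by bounds at all finite places, the general
inequality with several blocks, and the discriminant of a field generated by radicals.
-/

namespace Pool.Agent.H26.REM

open NumberField Height Finset Polynomial

/-- The lattice of the elements which are bounded by `t` at the finite places. -/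
noncomputable def LT (M : Type) [Field M] [NumberField M] (t : FinitePlace M → ℝ) :
    Submodule ℤ M :=
  Submodule.span ℤ {z : M | ∀ v : FinitePlace M, v.1 z ≤ t v}

/-- The vectors of the weighted conjugates of all components. -/
noncomputable def vecK (M : Type) [Field M] [NumberField M] {k : ℕ}
    (w : Fin k → (M →+* ℂ) → ℝ) : (Fin k → M) →+ EuclideanSpace ℂ (Fin k × (M →+* ℂ)) where
  toFun x := WithLp.toLp 2 fun s => (w s.1 s.2 : ℂ) * s.2 (x s.1)
  map_zero' := by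
    ext s
    simp
  map_add' x y := by
    ext s
    simp [mul_add]

/-- The values of the twisted linear forms. -/
noncomputable def EE {K M : Type} [Field K] [Field M] [Algebra K M] {k R : ℕ}
    (φ : Fin k → K ≃+* K) (Y : Fin k → Fin R → M) : (Fin R → K) →+ (Fin k → M) where
  toFun x b := ∑ j, algebraMap K M (φ b (x j)) * Y b j
  map_zero' := by
    ext b
    simp
  map_add' x y := by
    ext b
    simp [add_mul, Finset.sum_add_distrib]

/-- The lattice of the values at the integral vectors. -/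
noncomputable def ELam {K M : Type} [Field K] [Field M] [Algebra K M] {k R : ℕ}
    (φ : Fin k → K ≃+* K) (Y : Fin k → Fin R → M) : Submodule ℤ (Fin k → M) :=
  Submodule.span ℤ {z : Fin k → M | ∃ x : Fin R → 𝓞 K, z = EE φ Y fun j => (x j : K)}

/-- The common kernel of the forms with index less than `b`. -/
noncomputable def KerB {K M : Type} [Field K] [Field M] [Algebra K M] {k R : ℕ}
    (φ : Fin k → K ≃+* K) (Y : Fin k → Fin R → M) (b : ℕ) : Submodule K (Fin R → K) where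
  carrier := {x | ∀ b' : Fin k, (b' : ℕ) < b → EE φ Y x b' = 0}
  add_mem' := by
    intro x y hx hy b' hb'
    rw [map_add, Pi.add_apply, hx b' hb', hy b' hb', add_zero]
  zero_mem' := by
    intro b' _
    rw [map_zero, Pi.zero_apply]
  smul_mem' := by
    intro c x hx b' hb'
    have h := hx b' hb'
    simp only [EE, AddMonoidHom.coe_mk, ZeroHom.coe_mk] at h ⊢
    calc ∑ j, algebraMap K M (φ b' ((c • x) j)) * Y b' j
        = algebraMap K M (φ b' c) * ∑ j, algebraMap K M (φ b' (x j)) * Y b' j := by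
          rw [Finset.mul_sum]
          refine Finset.sum_congr rfl fun j _ => ?_
          rw [Pi.smul_apply, smul_eq_mul, map_mul, map_mul, mul_assoc]
      _ = 0 := by rw [h, mul_zero]

/-- LTF: these lattices are lattices. -/
def T_LTF : Prop := ∀ (M : Type) [Field M] [NumberField M] (t : FinitePlace M → ℝ),
  (∀ v, 0 < t v) → {v | t v ≠ 1}.Finite →
  (∀ z : M, z ∈ LT M t ↔ ∀ v : FinitePlace M, v.1 z ≤ t v) ∧ (LT M t).FG ∧
    Submodule.span ℚ (LT M t : Set M) = ⊤

/-- LTV: the Gram determinant of such a lattice. -/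
def T_LTV : Prop := ∀ (M : Type) [Field M] [NumberField M] (t : FinitePlace M → ℝ),
  (∀ v, 0 < t v) → {v | t v ≠ 1}.Finite → ∀ w : (M →+* ℂ) → ℝ, (∀ s, 0 < w s) →
  ∀ (k : ℕ) (z : Fin k → M), IsBas (LT M t) ⊤ z →
  |(discr M : ℝ)| * (∏ s, w s) ^ 2 * ((∏ᶠ v, t v) ^ 2)⁻¹ ≤ GD fun i => vec M w (z i)

/-- LSK: Lemma S for the subspaces over a field `K`. -/
def T_LSK : Prop := ∀ (K V E E' : Type) [Field K] [CharZero K] [AddCommGroup V] [Module ℚ V]
  [Module K V] [IsScalarTower ℚ K V] [FiniteDimensional ℚ V] [NormedAddCommGroup E]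
  [InnerProductSpace ℂ E] [NormedAddCommGroup E'] [InnerProductSpace ℂ E']
  (L L' : Submodule ℤ V) (j : V →+ E) (j' : V →+ E'), IsEm j → IsEm j' → L.FG → L'.FG →
  Submodule.span ℚ (L : Set V) = ⊤ → Submodule.span ℚ (L' : Set V) = ⊤ →
  ∀ (t : ℕ) (g : Fin t → V →ₗ[K] V) (T : Fin t → E →ₗ[ℂ] E'),
  (∀ i x, j' (g i x) = T i (j x)) → (∀ i x, ‖T i x‖ ≤ ‖x‖) → (∀ i, Function.Injective (g i)) →
  (∀ i, ∀ x ∈ L, g i x ∈ L') → (∀ U : Submodule K V, U ≠ ⊥ → ⨆ i, U.map (g i) = ⊤) →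
  ∀ (k' : ℕ) (z' : Fin k' → V), IsBas L' ⊤ z' →
  ∀ (U : Submodule K V) (k : ℕ) (z : Fin k → V), IsBas L (U.restrictScalars ℚ) z →
  GD (fun i => j' (z' i)) ^ k ≤ GD (fun i => j (z i)) ^ Module.finrank ℚ V

/-- SLK: Lemma S for the lattices given by bounds at the finite places. -/
def T_SLK : Prop := ∀ (K M : Type) [Field K] [NumberField K] [Field M] [NumberField M]
  [Algebra K M] (t : FinitePlace M → ℝ) (w : (M →+* ℂ) → ℝ) (S : Type) [Finite S] (G : S → M),
  (∀ v, 0 < t v) → {v | t v ≠ 1}.Finite → (∀ s, 0 < w s) → (∀ i, G i ≠ 0) →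
  Submodule.span K (Set.range G) = ⊤ →
  ∀ (U : Submodule K M) (k : ℕ) (z : Fin k → M), LinearIndependent ℚ z →
  Submodule.span ℚ (Set.range z) = U.restrictScalars ℚ → (∀ i, z i ∈ LT M t) →
  Real.exp ((k : ℝ) / Module.finrank ℚ M * (Real.log |(discr M : ℝ)| +
      2 * ∑ s, Real.log (w s) - 2 * ∑ᶠ v, Real.log (t v) - 2 * logHeight G)) ≤
    GD fun i => vec M w (z i)

/-- EMK: the vectors of the weighted conjugates of all components. -/
def T_EMK : Prop := ∀ (M : Type) [Field M] [NumberField M] (k : ℕ)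
  (w : Fin k → (M →+* ℂ) → ℝ), (∀ b s, 0 < w b s) → IsEm (vecK M w)

/-- FLT: the filtration by the components. -/
def T_FLT : Prop := ∀ (M : Type) [Field M] [NumberField M] (k : ℕ)
  (w : Fin k → (M →+* ℂ) → ℝ), (∀ b s, 0 < w b s) → ∀ L : Submodule ℤ (Fin k → M), L.FG →
  ∀ (m : ℕ) (z : Fin m → (Fin k → M)), IsBas L (Submodule.span ℚ (L : Set (Fin k → M))) z →
  ∃ (n : Fin k → ℕ) (u : ∀ b, Fin (n b) → (Fin k → M)), (∀ b i, u b i ∈ L) ∧
    (∀ b i, ∀ b' < b, u b i b' = 0) ∧ (∀ b, LinearIndependent ℚ fun i => u b i b) ∧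
    (∀ (b : Fin k) (x : Fin k → M), x ∈ Submodule.span ℚ (L : Set (Fin k → M)) →
      (∀ b' < b, x b' = 0) → x b ∈ Submodule.span ℚ (Set.range fun i => u b i b)) ∧
    ∏ b, GD (fun i => vec M (w b) (u b i b)) ≤ GD fun i => vecK M w (z i)

/-- GIU: the upper bound for the Gram determinant of the lattice of the values. -/
def T_GIU : Prop := ∀ (K M : Type) [Field K] [NumberField K] [Field M] [NumberField M]
  [Algebra K M] (k R : ℕ) (φ : Fin k → K ≃+* K) (Y : Fin k → Fin R → M)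
  (w : Fin k → (M →+* ℂ) → ℝ), (∀ b s, 0 < w b s) → (∀ b j s, w b s * ‖s (Y b j)‖ ≤ 1) →
  (∀ x : Fin R → K, EE φ Y x = 0 → x = 0) →
  ∀ (m : ℕ) (z : Fin m → (Fin k → M)),
  IsBas (ELam φ Y) (Submodule.span ℚ (ELam φ Y : Set (Fin k → M))) z →
  m = Module.finrank ℚ K * R ∧
    GD (fun i => vecK M w (z i)) ≤
      |(discr K : ℝ)| ^ R * (k * Module.finrank K M : ℝ) ^ (Module.finrank ℚ K * R)

/-- GI: the main inequality, with several blocks. -/
def T_GI : Prop := ∀ (K M : Type) [Field K] [NumberField K] [Field M] [NumberField M]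
  [Algebra K M] (k R : ℕ) (φ : Fin k → K ≃+* K) (Y : Fin k → Fin R → M) (S : Fin k → Type)
  [∀ b, Finite (S b)] (Z : ∀ b, S b → M) (X : Fin k → ℝ) (ϖ : Fin k → FinitePlace M → ℝ)
  (T : Type) [Finite T] (G : T → M), (∀ t, G t ≠ 0) → Submodule.span K (Set.range G) = ⊤ →
  (∀ b, Z b ≠ 0) → (∀ b, 0 < X b) → (∀ b v, 0 < ϖ b v) → (∀ b, {v | ϖ b v ≠ 1}.Finite) →
  (∀ b j (s : M →+* ℂ), ‖s (Y b j)‖ ≤ X b * ⨆ l, ‖s (Z b l)‖) →
  (∀ (b : Fin k) (x : Fin R → 𝓞 K), (∀ b' < b, EE φ Y (fun j => (x j : K)) b' = 0) →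
    ∀ v : FinitePlace M, v.1 (EE φ Y (fun j => (x j : K)) b) ≤ ϖ b v * ⨆ l, v.1 (Z b l)) →
  (∀ x : Fin R → K, EE φ Y x = 0 → x = 0) →
  (R : ℝ) * (Real.log |(discr M : ℝ)| / (2 * Module.finrank ℚ M) -
      Real.log |(discr K : ℝ)| / (2 * Module.finrank ℚ K)) ≤
    R * (Real.log (k * Module.finrank K M) / 2 + logHeight G / Module.finrank ℚ M) +
    ∑ b : Fin k, ((Module.finrank K (KerB φ Y b) : ℝ) - Module.finrank K (KerB φ Y (b + 1))) *
      (logHeight (Z b) / Module.finrank ℚ M + Real.log (X b) +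
        (∑ᶠ v, Real.log (ϖ b v)) / Module.finrank ℚ M)

/-- DSK: the discriminant of a field generated by radicals of good coprime levels. -/
def T_DSK : Prop := ∀ (K M : Type) [Field K] [NumberField K] [Field M] [NumberField M]
  [Algebra K M] (r : ℕ) (a : Fin r → ℚ) (N : Fin r → ℕ) (θ : Fin r → M), (∀ i, a i ≠ 0) →
  (∀ i, 0 < N i) → (∀ i, θ i ^ N i = ((a i : ℚ) : M)) →
  (∀ i j, i ≠ j → Nat.Coprime (N i) (N j)) →
  (∀ (i : Fin r) (q : ℕ), q.Prime → q ∣ N i → Good q (a i) ∧ ¬ (q : ℤ) ∣ discr K) →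
  |(discr K : ℝ)| ^ Module.finrank K M * (∏ i, (N i : ℝ)) ^ Module.finrank ℚ M ≤
    |(discr M : ℝ)|

end Pool.Agent.H26.REM
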